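import Mathlib

set_option autoImplicit false

/-! Flat frontier points (MP_54add4_co): definitions.
Combinatorial part: Kuhn simplices in `ℤⁿ`, labels.  Topological part: fillable even maps. -/

open scoped BigOperators

namespace Pool.Agent.FPT

section Kuhn

/-- The vertex number `k` (`0 ≤ k ≤ n`) of the Kuhn simplex with base point `v` and order `ρ`:
the coordinate `i` is raised by one at step `ρ i + 1`. -/
def vert {n : ℕ} (v : Fin n → ℤ) (ρ : Equiv.Perm (Fin n)) (k : ℕ) : Fin n → ℤ :=
  fun i => v i + if (ρ i : ℕ) < k then 1 else 0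

/-- The facet of the Kuhn simplex opposite to the vertex number `k₀` carries all labels
`0, …, n - 1` (it has `n` vertices, so each label exactly once). -/
def FullFacet {n : ℕ} (lab : (Fin n → ℤ) → ℕ) (v : Fin n → ℤ) (ρ : Equiv.Perm (Fin n))
    (k₀ : ℕ) : Prop :=
  ∀ l < n, ∃ k ≤ n, k ≠ k₀ ∧ lab (vert v ρ k) = l

/-- The Kuhn simplex carries all labels `0, …, n`. -/
def FullSimplex {n : ℕ} (lab : (Fin n → ℤ) → ℕ) (v : Fin n → ℤ) (ρ : Equiv.Perm (Fin n)) : Prop :=
  ∀ l ≤ n, ∃ k ≤ n, lab (vert v ρ k) = l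

open Classical in
/-- The number mod 2 of full facets of Kuhn simplices that lie in the cell with base point `w`
orthogonal to the direction `i` (the coordinate `i` is the last one in the order, the last vertex is
omitted). -/
noncomputable def chainCount {m : ℕ} (lab : (Fin (m + 1) → ℤ) → ℕ) (i : Fin (m + 1))
    (w : Fin (m + 1) → ℤ) : ZMod 2 :=
  ((Finset.univ.filter fun ρ : Equiv.Perm (Fin (m + 1)) =>
    ρ i = Fin.last m ∧ FullFacet lab w ρ (m + 1)).card : ZMod 2)

/-- The base points of the cells of the box `∏ [lo j, hi j]` in the hyperplane `x_i = c`. -/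
noncomputable def face {n : ℕ} (lo hi : Fin n → ℤ) (i : Fin n) (c : ℤ) : Finset (Fin n → ℤ) :=
  Fintype.piFinset fun j => if j = i then {c} else Finset.Ico (lo j) (hi j)

/-- The model map of `ℝ^(m+2)`: `H x = |x|² e_last - 2 x_last x`. -/
noncomputable def H {m : ℕ} (x : Fin (m + 2) → ℝ) (i : Fin (m + 2)) : ℝ :=
  if i = Fin.last (m + 1) then (∑ j : Fin (m + 1), x j.castSucc ^ 2) - x (Fin.last (m + 1)) ^ 2
  else -(2 * x (Fin.last (m + 1)) * x i)

/-- The boundary labels coming from `H`: the first index with `H > 0` (and `m + 2` if there is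
none), for integer points of the boundary of the box `[-N, N]^(m+2)`. -/
def BdryLab {m : ℕ} (N : ℤ) (lab : (Fin (m + 2) → ℤ) → ℕ) : Prop :=
  ∀ z : Fin (m + 2) → ℤ, (∃ i, |z i| = N) → (∀ j, |z j| ≤ N) →
    (∀ i : Fin (m + 1), (lab z = (i : ℕ) ↔ z (Fin.last (m + 1)) * z i.castSucc < 0 ∧
      ∀ k : Fin (m + 1), k < i → 0 ≤ z (Fin.last (m + 1)) * z k.castSucc)) ∧
    (lab z = m + 1 ↔ (∀ k : Fin (m + 1), 0 ≤ z (Fin.last (m + 1)) * z k.castSucc) ∧
      z (Fin.last (m + 1)) ^ 2 < ∑ j : Fin (m + 1), z j.castSucc ^ 2)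

/-- The direction in which the box is halved: the last but one. -/
def hdir (m : ℕ) : Fin (m + 2) := (Fin.last m).castSucc

/-- The lower corner of the half box. -/
def hlo (m : ℕ) (N : ℤ) : Fin (m + 2) → ℤ := fun j => if j = hdir m then 0 else -N

/-- The upper corner of the half box. -/
def hhi (m : ℕ) (N : ℤ) : Fin (m + 2) → ℤ := fun _ => N

end Kuhn

section Fill

variable {E V : Type*} [NormedAddCommGroup E] [NormedSpace ℝ E] [NormedAddCommGroup V]
  [NormedSpace ℝ V]

/-- `F` is continuous away from `0`, even and homogeneous of degree `0`. -/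
structure Adm (F : E → V) : Prop where
  cont : ContinuousOn F {0}ᶜ
  even : ∀ x, F (-x) = F x
  hom : ∀ r : ℝ, 0 < r → ∀ x, F (r • x) = F x

/-- `F`, restricted to the outside of the open unit ball, has an even continuous nowhere zero
extension to the whole space. -/
def Fillable (F : E → V) : Prop :=
  ∃ G : E → V, Continuous G ∧ (∀ x, G (-x) = G x) ∧ (∀ x, G x ≠ 0) ∧ ∀ x, 1 ≤ ‖x‖ → G x = F x

end Fill

section Refl

variable {E : Type*} [NormedAddCommGroup E] [InnerProductSpace ℝ E]

/-- The reflection of `w` in the hyperplane orthogonal to `u` (and `w` itself if `u = 0`). -/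
noncomputable def refl (u w : E) : E := w - (2 * inner ℝ u w / ‖u‖ ^ 2) • u

/-- The configuration map of a simplex with edge vectors `w i` at the base point `x`. -/
noncomputable def cmap {d : ℕ} (g : E → ℝ) (w : Fin d → E) (κ : ℝ) (x u : E) : Fin d → ℝ :=
  fun i => g (x + κ • refl u (w i)) - g x

end Refl

end Pool.Agent.FPT
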