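import Pool.Agent.FPT.Defs

set_option autoImplicit false

open scoped BigOperators

namespace Pool.Agent.FPT

private theorem evalA_vert {n : ℕ} (v : Fin n → ℤ) (ρ : Equiv.Perm (Fin n)) (k : ℕ) (j : Fin n) :
    vert v ρ k j = v j ∨ vert v ρ k j = v j + 1 := by
  unfold vert
  by_cases h : (ρ j : ℕ) < k
  · right; rw [if_pos h]
  · left; rw [if_neg h, add_zero]

private theorem evalA_bdry {m : ℕ} {N : ℤ} (hN : 0 < N) {c : ℤ} (hc : c = N ∨ c = -N)
    {i : Fin (m + 2)} {v : Fin (m + 2) → ℤ} (hv : v ∈ face (hlo m N) (hhi m N) i c)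
    {ρ : Equiv.Perm (Fin (m + 2))} (hρ : ρ i = Fin.last (m + 1)) {k : ℕ} (hk : k ≤ m + 2)
    (hk' : k ≠ m + 2) :
    vert v ρ k i = c ∧ (∃ i, |vert v ρ k i| = N) ∧ ∀ j, |vert v ρ k j| ≤ N := by
  unfold face at hv
  rw [Fintype.mem_piFinset] at hv
  have hi : v i = c := by
    have := hv i
    rw [if_pos rfl, Finset.mem_singleton] at this
    exact this
  have h1 : vert v ρ k i = c := by
    unfold vert
    rw [hρ, Fin.val_last, if_neg (by omega), add_zero, hi]
  have h2 : |vert v ρ k i| = N := by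
    rw [h1]
    rcases hc with rfl | rfl
    · exact abs_of_pos hN
    · rw [abs_neg, abs_of_pos hN]
  refine ⟨h1, ⟨i, h2⟩, fun j => ?_⟩
  by_cases hj : j = i
  · rw [hj, h2]
  · have h3 := hv j
    rw [if_neg hj, Finset.mem_Ico] at h3
    have h4 : -N ≤ hlo m N j := by
      unfold hlo
      split_ifs
      · omega
      · exact le_refl _
    have h5 : hhi m N j = N := rfl
    rw [h5] at h3
    rw [abs_le]
    rcases evalA_vert v ρ k j with h | h
    · rw [h]; omega
    · rw [h]; omega

/-- No full facet in the faces `x_last = ±N` (a vertex with label `m + 1` has `z_last z_k ≥ 0` for all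
`k` and `∑ z_k² > N²`; a vertex with label `k` has `z_last z_k < 0`; the vertices differ by at most one
in each coordinate, so all `z_k = 0` at the vertex with label `m + 1`: contradiction). -/
theorem eval_last {m : ℕ} (lab : (Fin (m + 2) → ℤ) → ℕ) {N : ℤ} (hN : 0 < N)
    (hb : BdryLab N lab) {c : ℤ} (hc : c = N ∨ c = -N) {v : Fin (m + 2) → ℤ}
    (hv : v ∈ face (hlo m N) (hhi m N) (Fin.last (m + 1)) c) :
    chainCount (m := m + 1) lab (Fin.last (m + 1)) v = 0 := by
  classical
  unfold chainCount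
  rw [Finset.card_eq_zero.2, Nat.cast_zero]
  rw [Finset.filter_eq_empty_iff]
  rintro ρ - ⟨hρ, hfull⟩
  obtain ⟨k, hk, hk', hlab⟩ := hfull (m + 1) (by omega)
  obtain ⟨hz1, hz2, hz3⟩ := evalA_bdry hN hc hv hρ hk hk'
  obtain ⟨-, hz4⟩ := hb _ hz2 hz3
  obtain ⟨hz5, hz6⟩ := hz4.1 hlab
  rw [hz1] at hz5 hz6
  have hzero : ∀ j : Fin (m + 1), vert v ρ k j.castSucc = 0 := by
    intro j
    obtain ⟨l, hl, hl', hlab'⟩ := hfull (j : ℕ) (by omega)
    obtain ⟨hy1, hy2, hy3⟩ := evalA_bdry hN hc hv hρ hl hl'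
    obtain ⟨hy4, -⟩ := hb _ hy2 hy3
    obtain ⟨hy5, -⟩ := (hy4 j).1 hlab'
    rw [hy1] at hy5
    have hz7 := hz5 j
    have h1 := evalA_vert v ρ k j.castSucc
    have h2 := evalA_vert v ρ l j.castSucc
    rcases hc with rfl | rfl
    · have h3 : 0 ≤ vert v ρ k j.castSucc := by
        by_contra h
        push Not at h
        nlinarith
      have h4 : vert v ρ l j.castSucc < 0 := by
        by_contra h
        push Not at h
        nlinarith
      omega
    · have h3 : vert v ρ k j.castSucc ≤ 0 := by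
        by_contra h
        push Not at h
        nlinarith
      have h4 : 0 < vert v ρ l j.castSucc := by
        by_contra h
        push Not at h
        nlinarith
      omega
  have h0 : ∑ j : Fin (m + 1), vert v ρ k j.castSucc ^ 2 = 0 :=
    Finset.sum_eq_zero fun j _ => by rw [hzero j]; norm_num
  rw [h0] at hz6
  nlinarith [sq_nonneg c]

/-- No full facet in the faces `x_i = ±N`, `i ≠ last, hdir` (a vertex with label `i` has
`z_last z_i < 0`, so `z_last ≠ 0` has the sign opposite to `z_i = ±N`; the vertex with label `m + 1` has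
`z_last = 0`, all vertices with `z_last = 0` have label `m + 1`, so there is exactly one; the labels of
the others are `≤ i`, because `z_last z_i < 0`: the label `m` is missing). -/
theorem eval_side {m : ℕ} (lab : (Fin (m + 2) → ℤ) → ℕ) {N : ℤ} (hN : 0 < N)
    (hb : BdryLab N lab) {c : ℤ} (hc : c = N ∨ c = -N) {i : Fin (m + 2)}
    (hi : i ≠ Fin.last (m + 1)) (hi' : i ≠ hdir m) {v : Fin (m + 2) → ℤ}
    (hv : v ∈ face (hlo m N) (hhi m N) i c) :
    chainCount (m := m + 1) lab i v = 0 := by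
  classical
  obtain ⟨j, rfl⟩ := Fin.exists_castSucc_eq.2 hi
  have hjm : j < Fin.last m := by
    rw [Fin.lt_last_iff_ne_last]
    intro h
    apply hi'
    rw [h]
    rfl
  unfold chainCount
  rw [Finset.card_eq_zero.2, Nat.cast_zero]
  rw [Finset.filter_eq_empty_iff]
  rintro ρ - ⟨hρ, hfull⟩
  -- the vertex with label `j`
  obtain ⟨l, hl, hl', hlab'⟩ := hfull (j : ℕ) (by omega)
  obtain ⟨hy1, hy2, hy3⟩ := evalA_bdry hN hc hv hρ hl hl'
  obtain ⟨hy4, -⟩ := hb _ hy2 hy3
  obtain ⟨hy5, -⟩ := (hy4 j).1 hlab'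
  -- the vertex with label `m`
  obtain ⟨k, hk, hk', hlab⟩ := hfull m (by omega)
  obtain ⟨hz1, hz2, hz3⟩ := evalA_bdry hN hc hv hρ hk hk'
  obtain ⟨hz4, -⟩ := hb _ hz2 hz3
  obtain ⟨hz5, hz6⟩ := (hz4 (Fin.last m)).1 (by rw [hlab, Fin.val_last])
  have hz7 := hz6 j hjm
  rw [hz1] at hz7
  rw [hy1] at hy5
  have h1 := evalA_vert v ρ k (Fin.last (m + 1))
  have h2 := evalA_vert v ρ l (Fin.last (m + 1))
  have h3 : vert v ρ k (Fin.last (m + 1)) ≠ 0 := by
    intro h
    rw [h, zero_mul] at hz5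
    exact lt_irrefl _ hz5
  rcases hc with rfl | rfl
  · have h4 : 0 ≤ vert v ρ k (Fin.last (m + 1)) := by
      by_contra h
      push Not at h
      nlinarith
    have h5 : vert v ρ l (Fin.last (m + 1)) < 0 := by
      by_contra h
      push Not at h
      nlinarith
    omega
  · have h4 : vert v ρ k (Fin.last (m + 1)) ≤ 0 := by
      by_contra h
      push Not at h
      nlinarith
    have h5 : 0 < vert v ρ l (Fin.last (m + 1)) := by
      by_contra h
      push Not at h
      nlinarith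
    omega

end Pool.Agent.FPT
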