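import Pool.Agent.FPT.Defs

set_option autoImplicit false

open scoped BigOperators

namespace Pool.Agent.FPT

private theorem evalB_vert {n : ℕ} (v : Fin n → ℤ) (ρ : Equiv.Perm (Fin n)) (k : ℕ) (j : Fin n) :
    vert v ρ k j = v j ∨ vert v ρ k j = v j + 1 := by
  unfold vert
  by_cases h : (ρ j : ℕ) < k
  · right; rw [if_pos h]
  · left; rw [if_neg h, add_zero]

private theorem evalB_bdry {m : ℕ} {N : ℤ} (hN : 0 < N) {c : ℤ} (hc : c = N ∨ c = -N)
    {i : Fin (m + 2)} {v : Fin (m + 2) → ℤ} (hv : v ∈ face (hlo m N) (hhi m N) i c)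
    {ρ : Equiv.Perm (Fin (m + 2))} (hρ : ρ i = Fin.last (m + 1)) {k : ℕ} (hk : k ≤ m + 2)
    (hk' : k ≠ m + 2) :
    vert v ρ k i = c ∧ (∃ i, |vert v ρ k i| = N) ∧ ∀ j, |vert v ρ k j| ≤ N := by
  unfold face at hv
  rw [Fintype.mem_piFinset] at hv
  have hi : v i = c := by
    have := hv i
    rw [if_pos rfl, Finset.mem_singleton] at this
    exact this
  have h1 : vert v ρ k i = c := by
    unfold vert
    rw [hρ, Fin.val_last, if_neg (by omega), add_zero, hi]
  have h2 : |vert v ρ k i| = N := by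
    rw [h1]
    rcases hc with rfl | rfl
    · exact abs_of_pos hN
    · rw [abs_neg, abs_of_pos hN]
  refine ⟨h1, ⟨i, h2⟩, fun j => ?_⟩
  by_cases hj : j = i
  · rw [hj, h2]
  · have h3 := hv j
    rw [if_neg hj, Finset.mem_Ico] at h3
    have h4 : -N ≤ hlo m N j := by
      unfold hlo
      split_ifs
      · omega
      · exact le_refl _
    have h5 : hhi m N j = N := rfl
    rw [h5] at h3
    rw [abs_le]
    rcases evalB_vert v ρ k j with h | h
    · rw [h]; omega
    · rw [h]; omega

/-- The special order. -/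
private def evalB_f (m : ℕ) (j : Fin (m + 2)) : Fin (m + 2) :=
  if (j : ℕ) < m then ⟨m - 1 - j, by omega⟩
  else if (j : ℕ) = m then Fin.last (m + 1) else hdir m

private theorem evalB_f_val (m : ℕ) (j : Fin (m + 2)) : (evalB_f m j : ℕ) =
    if (j : ℕ) < m then m - 1 - j else if (j : ℕ) = m then m + 1 else m := by
  unfold evalB_f hdir
  split_ifs <;> simp

private theorem evalB_f_inv (m : ℕ) : Function.Involutive (evalB_f m) := by
  intro j
  apply Fin.ext
  rw [evalB_f_val, evalB_f_val]
  have := j.2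
  split_ifs <;> omega

private def evalB_ρ (m : ℕ) : Equiv.Perm (Fin (m + 2)) := (evalB_f_inv m).toPerm

private theorem evalB_ρ_val (m : ℕ) (j : Fin (m + 2)) : (evalB_ρ m j : ℕ) =
    if (j : ℕ) < m then m - 1 - j else if (j : ℕ) = m then m + 1 else m :=
  evalB_f_val m j

/-- The special base point. -/
private def evalB_v (m : ℕ) (N : ℤ) (j : Fin (m + 2)) : ℤ :=
  if (j : ℕ) < m then 0 else if (j : ℕ) = m then N else -1

private theorem evalB_h_val (m : ℕ) : (hdir m : ℕ) = m := by
  unfold hdir; simp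

private theorem evalB_uniq {m : ℕ} (lab : (Fin (m + 2) → ℤ) → ℕ) {N : ℤ} (hN : 0 < N)
    (hb : BdryLab N lab) {v : Fin (m + 2) → ℤ}
    (hv : v ∈ face (hlo m N) (hhi m N) (hdir m) N) {ρ : Equiv.Perm (Fin (m + 2))}
    (hρ : ρ (hdir m) = Fin.last (m + 1)) (hfull : FullFacet lab v ρ (m + 2)) :
    v = evalB_v m N ∧ ρ = evalB_ρ m := by
  have hvh : v (hdir m) = N := by
    unfold face at hv
    rw [Fintype.mem_piFinset] at hv
    have := hv (hdir m)
    rw [if_pos rfl, Finset.mem_singleton] at this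
    exact this
  -- the vertex with label `m + 1`
  obtain ⟨q, hq, hq', hlabq⟩ := hfull (m + 1) (by omega)
  obtain ⟨hq1, hq2, hq3⟩ := evalB_bdry hN (Or.inl rfl) hv hρ hq hq'
  obtain ⟨-, hq4⟩ := hb _ hq2 hq3
  obtain ⟨hq5, -⟩ := hq4.1 hlabq
  have hq6 := hq5 (Fin.last m)
  have hq7 : vert v ρ q (Fin.last m).castSucc = N := hq1
  rw [hq7] at hq6
  have hq8 : 0 ≤ vert v ρ q (Fin.last (m + 1)) := by
    by_contra h
    push Not at h
    nlinarith
  -- the vertices with the labels `0, …, m`
  have hex : ∀ i : Fin (m + 1), ∃ k : ℕ, k ≤ m + 2 ∧ k ≠ m + 2 ∧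
      vert v ρ k (hdir m) = N ∧ vert v ρ k (Fin.last (m + 1)) * vert v ρ k i.castSucc < 0 ∧
      ∀ j : Fin (m + 1), j < i → 0 ≤ vert v ρ k (Fin.last (m + 1)) * vert v ρ k j.castSucc := by
    intro i
    obtain ⟨k, hk, hk', hlab⟩ := hfull (i : ℕ) (by omega)
    obtain ⟨hz1, hz2, hz3⟩ := evalB_bdry hN (Or.inl rfl) hv hρ hk hk'
    obtain ⟨hz4, -⟩ := hb _ hz2 hz3
    obtain ⟨hz5, hz6⟩ := (hz4 i).1 hlab
    exact ⟨k, hk, hk', hz1, hz5, hz6⟩
  choose g hg1 hg2 hg3 hg4 hg5 using hex
  -- the last coordinate of `v`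
  have hlast : v (Fin.last (m + 1)) = -1 := by
    have h1 := hg4 (Fin.last m)
    have h2 : vert v ρ (g (Fin.last m)) (Fin.last m).castSucc = N := hg3 (Fin.last m)
    rw [h2] at h1
    have h3 : vert v ρ (g (Fin.last m)) (Fin.last (m + 1)) < 0 := by
      by_contra h
      push Not at h
      nlinarith
    rcases evalB_vert v ρ (g (Fin.last m)) (Fin.last (m + 1)) with h | h <;>
      rcases evalB_vert v ρ q (Fin.last (m + 1)) with h' | h' <;> omega
  have hρq : (ρ (Fin.last (m + 1)) : ℕ) < q := by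
    by_contra h
    unfold vert at hq8
    rw [if_neg h, hlast] at hq8
    omega
  have hg6 : ∀ i, vert v ρ (g i) (Fin.last (m + 1)) = -1 := by
    intro i
    have h1 := hg4 i
    rcases evalB_vert v ρ (g i) (Fin.last (m + 1)) with h | h
    · rw [h, hlast]
    · exfalso
      rw [h, hlast] at h1
      norm_num at h1
  have hg7 : ∀ i, g i ≤ (ρ (Fin.last (m + 1)) : ℕ) := by
    intro i
    by_contra h
    push Not at h
    have h1 := hg6 i
    unfold vert at h1
    rw [if_pos h, hlast] at h1
    omega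
  have hg8 : ∀ i, 0 < vert v ρ (g i) i.castSucc := by
    intro i
    have h1 := hg4 i
    rw [hg6 i] at h1
    omega
  have hg9 : ∀ i j : Fin (m + 1), j < i → vert v ρ (g i) j.castSucc ≤ 0 := by
    intro i j hij
    have h1 := hg5 i j hij
    rw [hg6 i] at h1
    omega
  have hanti : ∀ i j : Fin (m + 1), j < i → g i < g j := by
    intro i j hij
    by_contra h
    push Not at h
    have h1 := hg9 i j hij
    have h2 := hg8 j
    unfold vert at h1 h2
    by_cases h3 : (ρ j.castSucc : ℕ) < g j
    · have h4 : (ρ j.castSucc : ℕ) < g i := lt_of_lt_of_le h3 h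
      rw [if_pos h3] at h2
      rw [if_pos h4] at h1
      omega
    · rw [if_neg h3] at h2
      split_ifs at h1 <;> omega
  have hub : ∀ a : ℕ, ∀ ha : a < m + 1, g ⟨a, ha⟩ + a ≤ (ρ (Fin.last (m + 1)) : ℕ) := by
    intro a
    induction a with
    | zero => intro ha; exact hg7 _
    | succ a ih =>
      intro ha
      have h1 := ih (by omega)
      have h2 := hanti ⟨a + 1, ha⟩ ⟨a, by omega⟩ (by rw [Fin.lt_def]; simp)
      omega
  have hlb : ∀ b : ℕ, ∀ hb' : b ≤ m, b ≤ g ⟨m - b, by omega⟩ := by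
    intro b
    induction b with
    | zero => intro hb'; exact Nat.zero_le _
    | succ b ih =>
      intro hb'
      have h1 := ih (by omega)
      have h2 := hanti ⟨m - b, by omega⟩ ⟨m - (b + 1), by omega⟩
        (by rw [Fin.lt_def]; simp only; omega)
      omega
  have hρ1 : (ρ (Fin.last (m + 1)) : ℕ) = m := by
    have h1 := hub m (by omega)
    have h2 : (ρ (Fin.last (m + 1)) : ℕ) ≤ m := by omega
    omega
  have hge : ∀ i : Fin (m + 1), g i = m - i := by
    intro i
    have h1 := hub i i.2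
    have h2 := hlb (m - i) (by omega)
    have h3 : (⟨m - (m - (i : ℕ)), by omega⟩ : Fin (m + 1)) = i := by
      apply Fin.ext
      simp only
      omega
    rw [h3] at h2
    have h4 : (⟨(i : ℕ), i.2⟩ : Fin (m + 1)) = i := rfl
    rw [h4] at h1
    omega
  have hv0 : ∀ i : Fin (m + 1), (i : ℕ) < m → v i.castSucc = 0 ∧ (ρ i.castSucc : ℕ) = m - 1 - i := by
    intro i hi
    have h1 := hg9 (Fin.last m) i (by rw [Fin.lt_def, Fin.val_last]; exact hi)
    rw [hge (Fin.last m), Fin.val_last, Nat.sub_self] at h1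
    unfold vert at h1
    rw [if_neg (Nat.not_lt_zero _), add_zero] at h1
    have h2 := hg8 i
    rw [hge i] at h2
    unfold vert at h2
    have h3 := hg9 ⟨i + 1, by omega⟩ i (by rw [Fin.lt_def]; simp)
    rw [hge ⟨i + 1, by omega⟩] at h3
    unfold vert at h3
    simp only at h3
    have h4 : (ρ i.castSucc : ℕ) < m - i := by
      by_contra h
      rw [if_neg h] at h2
      omega
    rw [if_pos h4] at h2
    have h5 : v i.castSucc = 0 := by omega
    refine ⟨h5, ?_⟩
    have h6 : ¬ (ρ i.castSucc : ℕ) < m - (i + 1) := by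
      intro h
      rw [if_pos h, h5] at h3
      omega
    omega
  have hcases : ∀ j : Fin (m + 2), (∃ i : Fin (m + 1), (i : ℕ) < m ∧ j = i.castSucc) ∨ j = hdir m ∨
      j = Fin.last (m + 1) := by
    intro j
    have hj := j.2
    rcases lt_trichotomy (j : ℕ) m with h | h | h
    · left
      exact ⟨⟨j, by omega⟩, h, by apply Fin.ext; simp⟩
    · right; left
      apply Fin.ext
      rw [evalB_h_val]; exact h
    · right; right
      apply Fin.ext
      rw [Fin.val_last]; omega
  constructor
  · funext j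
    unfold evalB_v
    rcases hcases j with ⟨i, hi, rfl⟩ | rfl | rfl
    · rw [Fin.val_castSucc, if_pos hi]; exact (hv0 i hi).1
    · rw [evalB_h_val, if_neg (lt_irrefl _), if_pos rfl]; exact hvh
    · rw [Fin.val_last, if_neg (by omega), if_neg (by omega)]; exact hlast
  · apply Equiv.ext
    intro j
    apply Fin.ext
    rw [evalB_ρ_val]
    rcases hcases j with ⟨i, hi, rfl⟩ | rfl | rfl
    · rw [Fin.val_castSucc, if_pos hi]; exact (hv0 i hi).2
    · rw [evalB_h_val, if_neg (lt_irrefl _), if_pos rfl, hρ, Fin.val_last]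
    · rw [Fin.val_last, if_neg (by omega), if_neg (by omega)]; exact hρ1

private theorem evalB_mem {m : ℕ} {N : ℤ} (hN : 0 < N) :
    evalB_v m N ∈ face (hlo m N) (hhi m N) (hdir m) N := by
  unfold face
  rw [Fintype.mem_piFinset]
  intro j
  have hj := j.2
  by_cases h : j = hdir m
  · subst h
    rw [if_pos rfl, Finset.mem_singleton]
    unfold evalB_v
    rw [evalB_h_val, if_neg (lt_irrefl _), if_pos rfl]
  · rw [if_neg h, Finset.mem_Ico]
    have h1 : (j : ℕ) ≠ m := by
      intro h'
      apply h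
      apply Fin.ext
      rw [evalB_h_val]; exact h'
    have h2 : hlo m N j = -N := by
      unfold hlo; rw [if_neg h]
    have h3 : hhi m N j = N := rfl
    rw [h2, h3]
    unfold evalB_v
    rw [if_neg h1]
    split_ifs <;> omega

private theorem evalB_ρ_h (m : ℕ) : evalB_ρ m (hdir m) = Fin.last (m + 1) := by
  apply Fin.ext
  rw [evalB_ρ_val, evalB_h_val, if_neg (lt_irrefl _), if_pos rfl, Fin.val_last]

private theorem evalB_full {m : ℕ} (lab : (Fin (m + 2) → ℤ) → ℕ) {N : ℤ} (hN : 0 < N)
    (hb : BdryLab N lab) : FullFacet lab (evalB_v m N) (evalB_ρ m) (m + 2) := by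
  intro l hl
  by_cases hlm : l = m + 1
  · subst hlm
    refine ⟨m + 1, by omega, by omega, ?_⟩
    obtain ⟨hz1, hz2, hz3⟩ := evalB_bdry hN (Or.inl rfl) (evalB_mem (m := m) hN) (evalB_ρ_h m)
      (k := m + 1) (by omega) (by omega)
    obtain ⟨-, hz4⟩ := hb _ hz2 hz3
    rw [hz4]
    have h0 : vert (evalB_v m N) (evalB_ρ m) (m + 1) (Fin.last (m + 1)) = 0 := by
      unfold vert evalB_v
      rw [evalB_ρ_val, Fin.val_last, if_neg (by omega : ¬ m + 1 < m), if_neg (by omega : ¬ m + 1 = m),
        if_neg (by omega : ¬ m + 1 < m), if_neg (by omega : ¬ m + 1 = m), if_pos (by omega)]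
      norm_num
    rw [h0]
    refine ⟨fun k => by rw [zero_mul], ?_⟩
    have h1 : vert (evalB_v m N) (evalB_ρ m) (m + 1) (Fin.last m).castSucc = N := hz1
    have h2 : vert (evalB_v m N) (evalB_ρ m) (m + 1) (Fin.last m).castSucc ^ 2 ≤
        ∑ j : Fin (m + 1), vert (evalB_v m N) (evalB_ρ m) (m + 1) j.castSucc ^ 2 :=
      Finset.single_le_sum (f := fun j : Fin (m + 1) =>
        vert (evalB_v m N) (evalB_ρ m) (m + 1) j.castSucc ^ 2)
        (fun j _ => sq_nonneg _) (Finset.mem_univ (Fin.last m))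
    rw [h1] at h2
    have h3 : 0 < N ^ 2 := by positivity
    omega
  · have hl' : l < m + 1 := by omega
    refine ⟨m - l, by omega, by omega, ?_⟩
    obtain ⟨hz1, hz2, hz3⟩ := evalB_bdry hN (Or.inl rfl) (evalB_mem (m := m) hN) (evalB_ρ_h m)
      (k := m - l) (by omega) (by omega)
    obtain ⟨hz4, -⟩ := hb _ hz2 hz3
    have h5 := (hz4 ⟨l, hl'⟩).2
    apply h5
    have h0 : vert (evalB_v m N) (evalB_ρ m) (m - l) (Fin.last (m + 1)) = -1 := by
      unfold vert evalB_v
      rw [evalB_ρ_val, Fin.val_last, if_neg (by omega : ¬ m + 1 < m), if_neg (by omega : ¬ m + 1 = m),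
        if_neg (by omega : ¬ m + 1 < m), if_neg (by omega : ¬ m + 1 = m), if_neg (by omega)]
      norm_num
    rw [h0]
    constructor
    · have h6 : 0 < vert (evalB_v m N) (evalB_ρ m) (m - l) (Fin.castSucc ⟨l, hl'⟩) := by
        by_cases hlm' : l = m
        · have h7 : (Fin.castSucc ⟨l, hl'⟩ : Fin (m + 2)) = hdir m := by
            apply Fin.ext
            rw [evalB_h_val]
            simpa using hlm'
          rw [h7, hz1]
          exact hN
        · unfold vert evalB_v
          rw [evalB_ρ_val, Fin.val_castSucc]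
          simp only
          rw [if_pos (by omega : l < m), if_pos (by omega : l < m), if_pos (by omega)]
          norm_num
      omega
    · intro k hk
      have hk' : (k : ℕ) < l := hk
      have h6 : vert (evalB_v m N) (evalB_ρ m) (m - l) k.castSucc = 0 := by
        unfold vert evalB_v
        rw [evalB_ρ_val, Fin.val_castSucc]
        rw [if_pos (by omega : (k : ℕ) < m), if_pos (by omega : (k : ℕ) < m), if_neg (by omega)]
        norm_num
      rw [h6]
      norm_num

/-- Exactly one full facet in the face `x_h = N`, `h = hdir m`: base point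
`v = (0, …, 0, N, -1)`, order: the coordinates `m - 1, m - 2, …, 0`, then `last` (then `h`).
Proof: a vertex with label `h = m` has `z_last z_m < 0`, `z_m = N`, so `z_last < 0`; the vertex with label
`m + 1` has `z_last z_m ≥ 0`, so `z_last = 0` there; the vertices with `z_last = 0` have label `m + 1`, so
exactly one vertex has `z_last = 0`, it is the vertex number `m` (the last one), the others have
`z_last = -1`, i.e. `v_last = -1`, `ρ last = m`. The vertices with `z_last = -1` have label
`min {i | 0 < z_i}`, which does not increase along the chain, so (distinct labels `0..m`) the vertex `k`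
has label `m - k`; hence `v_i ≤ 0` for `i < m`, the step from `k` to `k + 1` raises the coordinate
`m - k - 1` from `0` to `1`: `v_i = 0` and `ρ i = m - 1 - i` for `i < m`.  Checked by brute force for
`m = 0, 1, 2`, `N ≤ 3`. -/
theorem eval_top {m : ℕ} (lab : (Fin (m + 2) → ℤ) → ℕ) {N : ℤ} (hN : 0 < N)
    (hb : BdryLab N lab) :
    ∑ v ∈ face (hlo m N) (hhi m N) (hdir m) N, chainCount (m := m + 1) lab (hdir m) v = 1 := by
  classical
  rw [Finset.sum_eq_single (evalB_v m N)]
  · unfold chainCount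
    have h1 : (Finset.univ.filter fun ρ : Equiv.Perm (Fin (m + 1 + 1)) =>
        ρ (hdir m) = Fin.last (m + 1) ∧ FullFacet lab (evalB_v m N) ρ (m + 1 + 1)) =
        {evalB_ρ m} := by
      apply Finset.ext
      intro ρ
      rw [Finset.mem_filter, Finset.mem_singleton]
      constructor
      · rintro ⟨-, h2, h3⟩
        exact (evalB_uniq lab hN hb (evalB_mem hN) h2 h3).2
      · rintro rfl
        exact ⟨Finset.mem_univ _, evalB_ρ_h m, evalB_full lab hN hb⟩
    have h2 := congrArg Finset.card h1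
    rw [Finset.card_singleton] at h2
    convert (Nat.cast_one (R := ZMod 2)) using 2
  · intro v hv hne
    unfold chainCount
    rw [Finset.card_eq_zero.2, Nat.cast_zero]
    rw [Finset.filter_eq_empty_iff]
    rintro ρ - ⟨h2, h3⟩
    exact hne (evalB_uniq lab hN hb hv h2 h3).1
  · intro h
    exact absurd (evalB_mem hN) h

end Pool.Agent.FPT
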