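import Pool.Agent.FPT.Defs

set_option autoImplicit false
set_option linter.unusedSectionVars false

open scoped BigOperators

namespace Pool.Agent.FPT

variable {E V : Type*} [NormedAddCommGroup E] [NormedSpace ℝ E] [FiniteDimensional ℝ E]
  [NormedAddCommGroup V] [NormedSpace ℝ V]

omit [FiniteDimensional ℝ E] in
theorem Adm.continuousAt {F : E → V} (hF : Adm F) {x : E} (hx : x ≠ 0) : ContinuousAt F x :=
  hF.cont.continuousAt (isOpen_compl_singleton.mem_nhds hx)

theorem Adm.bounded {F : E → V} (hF : Adm F) : ∃ C : ℝ, 0 ≤ C ∧ ∀ x, x ≠ 0 → ‖F x‖ ≤ C := by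
  have hP : ProperSpace E := FiniteDimensional.proper_real E
  obtain ⟨C, hC⟩ := (isCompact_sphere (0 : E) 1).exists_bound_of_continuousOn (f := F)
    (hF.cont.mono (by
      intro x hx
      rw [Set.mem_compl_iff, Set.mem_singleton_iff]
      rintro rfl
      rw [mem_sphere_iff_norm, sub_zero, norm_zero] at hx
      exact zero_ne_one hx))
  refine ⟨max C 0, le_max_right _ _, fun x hx => ?_⟩
  have hx0 : 0 < ‖x‖ := norm_pos_iff.2 hx
  rw [← hF.hom ‖x‖⁻¹ (inv_pos.2 hx0) x]
  refine (hC _ ?_).trans (le_max_left _ _)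
  rw [mem_sphere_iff_norm, sub_zero, norm_smul, norm_inv, norm_norm, inv_mul_cancel₀ hx0.ne']

/-- A map into an open half-space is fillable: `G x = ‖x‖ F x + (1 - ‖x‖) F e` for `‖x‖ ≤ 1`
(`F` is bounded by compactness of the sphere and homogeneity). -/
theorem fillable_of_pos [Nontrivial E] {F : E → V} (hF : Adm F) (ℓ : V →L[ℝ] ℝ)
    (hpos : ∀ x, x ≠ 0 → 0 < ℓ (F x)) : Fillable F := by
  obtain ⟨e, he⟩ := exists_ne (0 : E)
  obtain ⟨C, hC0, hC⟩ := hF.bounded
  have hm : Continuous fun x : E => min 1 ‖x‖ := continuous_const.min continuous_norm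
  refine ⟨fun x => min 1 ‖x‖ • F x + (1 - min 1 ‖x‖) • F e, ?_, ?_, ?_, ?_⟩
  · refine Continuous.add ?_ ((continuous_const.sub hm).smul continuous_const)
    rw [continuous_iff_continuousAt]
    intro x
    by_cases hx : x = 0
    · subst hx
      have h0 : min 1 ‖(0 : E)‖ • F 0 = 0 := by
        simp
      rw [ContinuousAt, h0]
      refine tendsto_zero_iff_norm_tendsto_zero.2 ?_
      refine squeeze_zero (fun x => norm_nonneg _) (g := fun x => ‖x‖ * C) (fun x => ?_) ?_
      · rw [norm_smul]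
        by_cases hx : x = 0
        · subst hx
          simp
        · refine mul_le_mul ?_ (hC x hx) (norm_nonneg _) (norm_nonneg _)
          rw [Real.norm_eq_abs, abs_of_nonneg (le_min zero_le_one (norm_nonneg _))]
          exact min_le_right _ _
      · have h1 : Continuous fun x : E => ‖x‖ * C := continuous_norm.mul continuous_const
        have h2 := h1.tendsto 0
        rw [norm_zero, zero_mul] at h2
        exact h2
    · exact hm.continuousAt.smul (hF.continuousAt hx)
  · intro x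
    beta_reduce
    rw [norm_neg, hF.even]
  · intro x hx0
    have h1 : ℓ (min 1 ‖x‖ • F x + (1 - min 1 ‖x‖) • F e) =
        min 1 ‖x‖ * ℓ (F x) + (1 - min 1 ‖x‖) * ℓ (F e) := by
      rw [map_add, map_smul, map_smul, smul_eq_mul, smul_eq_mul]
    beta_reduce at hx0
    rw [hx0, map_zero] at h1
    by_cases hx : x = 0
    · subst hx
      rw [norm_zero, min_eq_right zero_le_one, zero_mul, zero_add, sub_zero, one_mul] at h1
      exact absurd (hpos e he) (by rw [← h1]; exact lt_irrefl _)
    · have h2 : 0 < min 1 ‖x‖ := lt_min zero_lt_one (norm_pos_iff.2 hx)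
      have h3 : min 1 ‖x‖ ≤ 1 := min_le_left _ _
      have h4 := mul_pos h2 (hpos x hx)
      have h5 := mul_nonneg (sub_nonneg.2 h3) (hpos e he).le
      linarith
  · intro x hx
    beta_reduce
    rw [min_eq_left hx, one_smul, sub_self, zero_smul, add_zero]

omit [FiniteDimensional ℝ E] in
/-- Collar: `G' x = G (2 x)` for `‖x‖ ≤ 1/2`, `(2 - 2 ‖x‖) F x + (2 ‖x‖ - 1) F' x` for
`1/2 ≤ ‖x‖ ≤ 1`, `F' x` outside. -/
theorem fillable_near_aux {F F' : E → V} (hF : Adm F) (hF' : Adm F') (h : Fillable F)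
    (hseg : ∀ x, x ≠ 0 → ∀ t ∈ Set.Icc (0 : ℝ) 1, (1 - t) • F x + t • F' x ≠ 0) :
    Fillable F' := by
  obtain ⟨G, hGc, hGe, hG0, hG1⟩ := h
  obtain ⟨s, hs⟩ : ∃ s : E → ℝ, s = fun x => max 0 (min 1 (2 * ‖x‖ - 1)) := ⟨_, rfl⟩
  have hsc : Continuous s := by
    rw [hs]
    exact continuous_const.max (continuous_const.min ((continuous_const.mul continuous_norm).sub continuous_const))
  have hs01 : ∀ x, s x ∈ Set.Icc (0 : ℝ) 1 := by
    intro x
    rw [hs]
    exact ⟨le_max_left _ _, max_le zero_le_one (min_le_left _ _)⟩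
  have hs0 : ∀ x, ‖x‖ ≤ 1 / 2 → s x = 0 := by
    intro x hx
    rw [hs]
    refine max_eq_left ((min_le_right _ _).trans ?_)
    linarith
  have hs1 : ∀ x, 1 ≤ ‖x‖ → s x = 1 := by
    intro x hx
    rw [hs]
    beta_reduce
    rw [min_eq_left (by linarith), max_eq_right zero_le_one]
  have hse : ∀ x, s (-x) = s x := by
    intro x
    rw [hs]
    beta_reduce
    rw [norm_neg]
  refine ⟨fun x => (1 - s x) • G ((2 : ℝ) • x) + s x • F' x, ?_, ?_, ?_, ?_⟩
  · refine Continuous.add ((continuous_const.sub hsc).smul (hGc.comp (continuous_const_smul _))) ?_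
    rw [continuous_iff_continuousAt]
    intro x
    by_cases hx : x = 0
    · subst hx
      have h1 : (fun x : E => s x • F' x) =ᶠ[nhds 0] fun _ => (0 : V) := by
        filter_upwards [Metric.ball_mem_nhds (0 : E) (show (0 : ℝ) < 1 / 2 by norm_num)] with y hy
        rw [mem_ball_zero_iff] at hy
        rw [hs0 y hy.le, zero_smul]
      exact continuousAt_const.congr h1.symm
    · exact hsc.continuousAt.smul (hF'.continuousAt hx)
  · intro x
    beta_reduce
    rw [hse, smul_neg, hGe, hF'.even]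
  · intro x
    beta_reduce
    by_cases hx : ‖x‖ ≤ 1 / 2
    · rw [hs0 x hx, sub_zero, one_smul, zero_smul, add_zero]
      exact hG0 _
    · rw [not_le] at hx
      have hx0 : x ≠ 0 := by
        rintro rfl
        rw [norm_zero] at hx
        linarith
      have h1 : G ((2 : ℝ) • x) = F x := by
        rw [hG1 _ (by
          rw [norm_smul, Real.norm_eq_abs, abs_of_pos (by norm_num : (0 : ℝ) < 2)]
          linarith), hF.hom 2 (by norm_num) x]
      rw [h1]
      exact hseg x hx0 _ (hs01 x)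
  · intro x hx
    beta_reduce
    rw [hs1 x hx, sub_self, zero_smul, one_smul, zero_add]

/-- Collar: `G' x = G (2 x)` for `‖x‖ ≤ 1/2`, `(2 - 2 ‖x‖) F x + (2 ‖x‖ - 1) F' x` for
`1/2 ≤ ‖x‖ ≤ 1`, `F' x` outside. -/
theorem fillable_near {F F' : E → V} (hF : Adm F) (hF' : Adm F') (h : Fillable F)
    (hseg : ∀ x, x ≠ 0 → ∀ t ∈ Set.Icc (0 : ℝ) 1, (1 - t) • F x + t • F' x ≠ 0) :
    Fillable F' := fillable_near_aux hF hF' h hseg

/-- Fillability propagates along a preconnected set of parameters: for `t` near `t'` the segments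
from `Φ t x` to `Φ t' x` avoid `0` for all `x ≠ 0` (compactness of the unit sphere, homogeneity). -/
theorem fillable_of_preconnected {T : Type*} [TopologicalSpace T] {C : Set T}
    (hC : IsPreconnected C) (Φ : T → E → V) (hΦ : ∀ t, Adm (Φ t))
    (hcont : ContinuousOn (fun z : T × E => Φ z.1 z.2) {z | z.2 ≠ 0})
    (hne : ∀ t ∈ C, ∀ x, x ≠ 0 → Φ t x ≠ 0) {t₀ t₁ : T} (h0 : t₀ ∈ C) (h1 : t₁ ∈ C)
    (h : Fillable (Φ t₀)) : Fillable (Φ t₁) := by
  have hP : ProperSpace E := FiniteDimensional.proper_real E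
  have hopen : IsOpen {z : T × E | z.2 ≠ 0} := isOpen_ne_fun continuous_snd continuous_const
  have hat : ∀ (t : T) (x : E), x ≠ 0 → ContinuousAt (fun z : T × E => Φ z.1 z.2) (t, x) :=
    fun t x hx => hcont.continuousAt (hopen.mem_nhds hx)
  have key : ∀ t' ∈ C, ∀ᶠ t in nhds t', ∀ x, x ≠ 0 → ∀ s ∈ Set.Icc (0 : ℝ) 1,
      (1 - s) • Φ t x + s • Φ t' x ≠ 0 := by
    intro t' ht'
    have h2 := ((isCompact_sphere (0 : E) 1).prod (isCompact_Icc (a := (0 : ℝ)) (b := 1))).eventually_forall_of_forall_eventually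
      (x₀ := t') (P := fun t y => (1 - y.2) • Φ t y.1 + y.2 • Φ t' y.1 ≠ 0) (by
        rintro ⟨x, s⟩ ⟨hx, hs⟩
        have hx0 : x ≠ 0 := by
          rintro rfl
          simp only [mem_sphere_iff_norm, sub_zero, norm_zero] at hx
          exact zero_ne_one hx
        have c1 : ContinuousAt (fun z : T × (E × ℝ) => Φ z.1 z.2.1) (t', (x, s)) :=
          ContinuousAt.comp' (f := fun z : T × (E × ℝ) => (z.1, z.2.1)) (g := fun z : T × E => Φ z.1 z.2)
            (hat t' x hx0) (by fun_prop)
        have c2 : ContinuousAt (fun z : T × (E × ℝ) => Φ t' z.2.1) (t', (x, s)) :=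
          ContinuousAt.comp' (f := fun z : T × (E × ℝ) => (t', z.2.1)) (g := fun z : T × E => Φ z.1 z.2)
            (hat t' x hx0) (by fun_prop)
        have c3 : ContinuousAt (fun z : T × (E × ℝ) => (1 - z.2.2) • Φ z.1 z.2.1 + z.2.2 • Φ t' z.2.1) (t', (x, s)) :=
          ((by fun_prop : ContinuousAt (fun z : T × (E × ℝ) => 1 - z.2.2) (t', (x, s))).smul c1).add
            ((by fun_prop : ContinuousAt (fun z : T × (E × ℝ) => z.2.2) (t', (x, s))).smul c2)
        refine c3.eventually_ne ?_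
        change (1 - s) • Φ t' x + s • Φ t' x ≠ 0
        rw [← add_smul, sub_add_cancel, one_smul]
        exact hne t' ht' x hx0)
    filter_upwards [h2] with t ht x hx s hs
    have hx0 : 0 < ‖x‖ := norm_pos_iff.2 hx
    have h3 := ht (‖x‖⁻¹ • x, s) ⟨by
      simp only [mem_sphere_iff_norm, sub_zero, norm_smul, norm_inv, norm_norm]
      exact inv_mul_cancel₀ hx0.ne', hs⟩
    simp only at h3
    rw [(hΦ t).hom _ (inv_pos.2 hx0), (hΦ t').hom _ (inv_pos.2 hx0)] at h3
    exact h3
  have h2 : Fillable (Φ t₀) ↔ Fillable (Φ t₁) := by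
    refine hC.induction₂ (fun a b => Fillable (Φ a) ↔ Fillable (Φ b)) ?_ ?_ ?_ h0 h1
    · intro t' ht'
      filter_upwards [mem_nhdsWithin_of_mem_nhds (key t' ht')] with t ht
      constructor
      · intro h3
        refine fillable_near (hΦ t') (hΦ t) h3 fun x hx s hs => ?_
        have h4 := ht x hx (1 - s) ⟨by linarith [hs.2], by linarith [hs.1]⟩
        rw [sub_sub_cancel, add_comm] at h4
        exact h4
      · intro h3
        exact fillable_near (hΦ t) (hΦ t') h3 fun x hx s hs => ht x hx s hs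
    · intro a b c _ _ _ h3 h4
      exact h3.trans h4
    · intro a b _ _ h3
      exact h3.symm
  exact h2.1 h

end Pool.Agent.FPT
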