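import Pool.Agent.FPT.Defs

set_option autoImplicit false

open scoped BigOperators

namespace Pool.Agent.FPT

variable {E : Type*} [NormedAddCommGroup E] [InnerProductSpace ℝ E]

/-- `g = f` on `closure U`, `g = - infDist · (closure U)` outside. -/
theorem exists_ext {U : Set E} {f : E → ℝ} (hf : ContinuousOn f (closure U))
    (hff : ∀ x ∈ frontier U, f x = 0) (hne : U.Nonempty) :
    ∃ g : E → ℝ, Continuous g ∧ (∀ x ∈ closure U, g x = f x) ∧ ∀ x ∉ closure U, g x < 0 := by
  classical
  have hg0 : Continuous fun x : E => - Metric.infDist x (closure U) :=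
    (Metric.continuous_infDist_pt (closure U)).neg
  refine ⟨(closure U).piecewise f (fun x => - Metric.infDist x (closure U)), ?_, ?_, ?_⟩
  · rw [← continuousOn_univ]
    refine ContinuousOn.piecewise ?_ ?_ hg0.continuousOn
    · rintro x ⟨-, hx⟩
      have h1 : x ∈ frontier U := frontier_closure_subset hx
      have h2 : x ∈ closure U := frontier_subset_closure h1
      have h3 : Metric.infDist x (closure U) = 0 := Metric.infDist_zero_of_mem h2
      rw [hff x h1, h3, neg_zero]
    · rw [Set.univ_inter, closure_closure]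
      exact hf
  · intro x hx
    exact Set.piecewise_eq_of_mem _ _ _ hx
  · intro x hx
    rw [Set.piecewise_eq_of_notMem _ _ _ hx, neg_lt_zero]
    exact (isClosed_closure.notMem_iff_infDist_pos hne.closure).1 hx

/-- A connected piece of the interior of `M` that is flat at a frontier point.  Proof:
`O = {x | dist x p < s, ε s < ⟪x - p, n⟫}` is open, convex and contained in `M`, hence in the interior;
`U` = the component of the interior that contains `O`; `p'` = a frontier point of `U` on the segment
from `p + 2 ε s n ∈ O` to `p - 2 ε s n ∉ interior M`; `frontier U ⊆ frontier M` as in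
Pool/Agent/InscribedSimplex/Main.lean. -/
theorem exists_flat_piece {M : Set E} (hM : IsClosed M) {p n : E} (hn : ‖n‖ = 1) {s ε : ℝ}
    (hs : 0 < s) (hε : 0 < ε) (hε1 : ε ≤ 1 / 8)
    (h1 : ∀ x, dist x p ≤ s → ε * s ≤ inner ℝ (x - p) n → x ∈ M)
    (h2 : ∀ x, dist x p ≤ s → inner ℝ (x - p) n ≤ -(ε * s) → x ∉ interior M) :
    ∃ (U : Set E) (q : E), IsOpen U ∧ IsConnected U ∧ U ⊆ M ∧ frontier U ⊆ frontier M ∧
      q ∈ frontier U ∧
      (∀ v, ‖v‖ ≤ s / 2 → 3 * ε * s < inner ℝ v n → q + v ∈ U) ∧
      (∀ v, ‖v‖ ≤ s / 2 → inner ℝ v n ≤ -(3 * ε * s) → q + v ∉ U) := by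
  have hεs : 0 < ε * s := mul_pos hε hs
  have hεs1 : ε * s ≤ s / 8 := by nlinarith
  have hnn : inner ℝ n n = (1 : ℝ) := by
    rw [real_inner_self_eq_norm_sq, hn, one_pow]
  set O : Set E := {x | dist x p < s ∧ ε * s < inner ℝ (x - p) n} with hO
  have hcont : Continuous fun x : E => (inner ℝ (x - p) n : ℝ) := by fun_prop
  have hOo : IsOpen O :=
    (isOpen_lt (continuous_id.dist continuous_const) continuous_const).inter
      (isOpen_lt continuous_const hcont)
  have hOM : O ⊆ M := fun x hx => h1 x hx.1.le hx.2.le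
  have hOI : O ⊆ interior M := interior_maximal hOM hOo
  have hOc : Convex ℝ O := by
    have e1 : O = Metric.ball p s ∩ {x | ε * s < inner ℝ (x - p) n} := rfl
    rw [e1]
    refine (convex_ball p s).inter ?_
    intro x hx y hy a b ha hb hab
    show ε * s < inner ℝ (a • x + b • y - p) n
    have e2 : a • x + b • y - p = a • (x - p) + b • (y - p) := by
      have e3 : p = (a + b) • p := by rw [hab, one_smul]
      conv_lhs => rw [e3]
      rw [add_smul, smul_sub, smul_sub]
      abel
    rw [e2, inner_add_left, real_inner_smul_left, real_inner_smul_left]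
    have hx' : ε * s < inner ℝ (x - p) n := hx
    have hy' : ε * s < inner ℝ (y - p) n := hy
    rcases eq_or_lt_of_le ha with h | h
    · have hb1 : b = 1 := by linarith
      rw [← h, hb1]
      linarith
    · have e4 : ε * s = a * (ε * s) + b * (ε * s) := by rw [← add_mul, hab, one_mul]
      rw [e4]
      exact add_lt_add_of_lt_of_le (mul_lt_mul_of_pos_left hx' h)
        (mul_le_mul_of_nonneg_left hy'.le hb)
  set a : E := p + (2 * (ε * s)) • n with ha
  set b : E := p - (2 * (ε * s)) • n with hb
  have haO : a ∈ O := by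
    constructor
    · rw [ha, dist_eq_norm, add_sub_cancel_left, norm_smul, hn, mul_one, Real.norm_eq_abs,
        abs_of_pos (by positivity)]
      linarith
    · rw [ha, add_sub_cancel_left, real_inner_smul_left, hnn, mul_one]
      linarith
  have hbI : b ∉ interior M := by
    apply h2
    · rw [hb, dist_eq_norm, sub_sub_cancel_left, norm_neg, norm_smul, hn, mul_one,
        Real.norm_eq_abs, abs_of_pos (by positivity)]
      linarith
    · rw [hb, sub_sub_cancel_left, inner_neg_left, real_inner_smul_left, hnn, mul_one]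
      linarith
  set U := connectedComponentIn (interior M) a with hU
  have hUo : IsOpen U := isOpen_interior.connectedComponentIn
  have haU : a ∈ U := mem_connectedComponentIn (hOI haO)
  have hUc : IsConnected U := ⟨⟨a, haU⟩, isPreconnected_connectedComponentIn⟩
  have hUI : U ⊆ interior M := connectedComponentIn_subset _ _
  have hUM : U ⊆ M := hUI.trans interior_subset
  have hcl : closure U ⊆ M := closure_minimal hUM hM
  have hOU : O ⊆ U := hOc.isPreconnected.subset_connectedComponentIn haO hOI
  have hbU : b ∉ U := fun h => hbI (hUI h)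
  obtain ⟨q, hq1, hq2⟩ : (segment ℝ a b ∩ frontier U).Nonempty := by
    by_contra hcon
    have hcon' : ∀ x ∈ segment ℝ a b, x ∉ frontier U := fun x hx hx' => hcon ⟨x, hx, hx'⟩
    obtain ⟨z, -, hz1, hz2⟩ := (convex_segment a b).isPreconnected U (closure U)ᶜ hUo
      isClosed_closure.isOpen_compl
      (by
        intro x hx
        by_cases hxU : x ∈ U
        · exact Or.inl hxU
        · refine Or.inr fun hxc => hcon' x hx ?_
          rw [hUo.frontier_eq]
          exact ⟨hxc, hxU⟩)
      ⟨a, left_mem_segment ℝ a b, haU⟩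
      ⟨b, right_mem_segment ℝ a b, fun hbc => hcon' b (right_mem_segment ℝ a b) (by
        rw [hUo.frontier_eq]
        exact ⟨hbc, hbU⟩)⟩
    exact hz2 (subset_closure hz1)
  obtain ⟨c, hc1, hc2, hqc⟩ : ∃ c : ℝ, -(2 * (ε * s)) ≤ c ∧ c ≤ 2 * (ε * s) ∧ q = p + c • n := by
    obtain ⟨x, y, hx, hy, hxy, rfl⟩ := hq1
    refine ⟨(x - y) * (2 * (ε * s)), ?_, ?_, ?_⟩
    · nlinarith
    · nlinarith
    · have e3 : (x + y) • p = p := by rw [hxy, one_smul]
      calc x • a + y • b = (x + y) • p + ((x - y) * (2 * (ε * s))) • n := by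
            rw [ha, hb]
            module
        _ = p + ((x - y) * (2 * (ε * s))) • n := by rw [e3]
  have hnv : ∀ v : E, ‖v‖ ≤ s / 2 → dist (q + v) p ≤ 3 * s / 4 := by
    intro v hv
    rw [hqc, dist_eq_norm]
    have e1 : p + c • n + v - p = c • n + v := by abel
    rw [e1]
    have e2 : ‖c • n‖ ≤ 2 * (ε * s) := by
      rw [norm_smul, hn, mul_one, Real.norm_eq_abs]
      exact abs_le.2 ⟨hc1, hc2⟩
    calc ‖c • n + v‖ ≤ ‖c • n‖ + ‖v‖ := norm_add_le _ _
      _ ≤ 3 * s / 4 := by linarith
  have hiv : ∀ v : E, inner ℝ (q + v - p) n = c + inner ℝ v n := by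
    intro v
    have e1 : q + v - p = c • n + v := by rw [hqc]; abel
    rw [e1, inner_add_left, real_inner_smul_left, hnn, mul_one]
  refine ⟨U, q, hUo, hUc, hUM, ?_, hq2, ?_, ?_⟩
  · intro x hx
    rw [frontier, Set.mem_sdiff]
    refine ⟨subset_closure (hcl (frontier_subset_closure hx)), fun hxi => ?_⟩
    rw [hUo.frontier_eq] at hx
    apply hx.2
    have hopen : IsOpen (connectedComponentIn (interior M) x) :=
      isOpen_interior.connectedComponentIn
    have hmem : x ∈ connectedComponentIn (interior M) x := mem_connectedComponentIn hxi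
    obtain ⟨z, hz1, hz2⟩ := mem_closure_iff.1 hx.1 _ hopen hmem
    have e1 : connectedComponentIn (interior M) x = connectedComponentIn (interior M) z :=
      connectedComponentIn_eq hz1
    have e2 : connectedComponentIn (interior M) a = connectedComponentIn (interior M) z :=
      connectedComponentIn_eq hz2
    rw [hU, e2, ← e1]
    exact hmem
  · intro v hv hv1
    apply hOU
    refine ⟨by have := hnv v hv; linarith, ?_⟩
    rw [hiv]
    linarith
  · intro v hv hv1 hmem
    apply h2 (q + v) (by have := hnv v hv; linarith) _ (hUI hmem)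
    rw [hiv]
    linarith

end Pool.Agent.FPT
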