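import Pool.Agent.FPT.NoFill
import Pool.Agent.FPT.Fill
import Pool.Agent.FPT.Geo
import Pool.Agent.InscribedSimplex.Simplex

set_option autoImplicit false

open scoped BigOperators Pointwise
open Set

namespace Pool.Agent.FPT

/-- `M` is flat at scale `s`, up to `ε s`, at some point. -/
def FlatAt {d : ℕ} (M : Set (EuclideanSpace ℝ (Fin d))) (ε s : ℝ) : Prop :=
  ∃ p n : EuclideanSpace ℝ (Fin d), ‖n‖ = 1 ∧
    (∀ x, dist x p ≤ s → ε * s ≤ inner ℝ (x - p) n → x ∈ M) ∧
    (∀ x, dist x p ≤ s → inner ℝ (x - p) n ≤ -(ε * s) → x ∉ interior M)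

/-- The core: a flat connected piece contains level copies. -/
theorem core {m : ℕ} {w : Fin (m + 2) → EuclideanSpace ℝ (Fin (m + 2))}
    (hw : LinearIndependent ℝ w) {c₀ : ℝ} (hc₀pos : 0 < c₀)
    (hc₀ : ∀ y : EuclideanSpace ℝ (Fin (m + 2)), ‖y‖ = 1 → ∃ i, c₀ ≤ |(inner ℝ (w i) y : ℝ)|)
    {U : Set (EuclideanSpace ℝ (Fin (m + 2)))} (hUo : IsOpen U) (hUc : IsConnected U)
    (hUb : Bornology.IsBounded U) {f : EuclideanSpace ℝ (Fin (m + 2)) → ℝ}
    (hf : ContinuousOn f (closure U)) (hf0 : ∀ x ∈ closure U, 0 ≤ f x)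
    (hff : ∀ x ∈ frontier U, f x = 0) {q n : EuclideanSpace ℝ (Fin (m + 2))} (hn : ‖n‖ = 1)
    (hq : q ∈ frontier U) {s η κ : ℝ} (hκ : 0 < κ) (hκs : ∀ i, κ * ‖w i‖ ≤ s) (hηc : η < κ * c₀)
    (h1 : ∀ v, ‖v‖ ≤ s → η < inner ℝ v n → q + v ∈ U)
    (h2 : ∀ v, ‖v‖ ≤ s → inner ℝ v n ≤ -η → q + v ∉ U) :
    ∃ x u : EuclideanSpace ℝ (Fin (m + 2)), x ∈ closure U ∧
      (∀ i, x + κ • refl u (w i) ∈ closure U) ∧ ∀ i, f (x + κ • refl u (w i)) = f x := by
  by_contra hNC
  push Not at hNC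
  obtain ⟨g, hgc, hgf, hgn⟩ := exists_ext hf hff hUc.nonempty
  have hne : ∀ x ∈ closure U, ∀ u : EuclideanSpace ℝ (Fin (m + 2)), cmap g w κ x u ≠ 0 := by
    intro x hx u h0
    have hval : ∀ i, g (x + κ • refl u (w i)) = g x := by
      intro i
      have h3 := congrFun h0 i
      simp only [cmap, Pi.zero_apply] at h3
      linarith
    have hmem : ∀ i, x + κ • refl u (w i) ∈ closure U := by
      intro i
      by_contra hi
      have h4 := hgn _ hi
      rw [hval i, hgf x hx] at h4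
      exact absurd (hf0 x hx) (not_le.2 h4)
    obtain ⟨i, hi⟩ := hNC x u hx hmem
    apply hi
    rw [← hgf _ (hmem i), ← hgf x hx]
    exact hval i
  have hqc : q ∈ closure U := hq.1
  have hgq : g q = 0 := by rw [hgf q hqc, hff q hq]
  -- the maximum
  have hcomp : IsCompact (closure U) := hUb.isCompact_closure
  obtain ⟨x0, hx0, hmax⟩ := hcomp.exists_isMaxOn ⟨q, hqc⟩ hgc.continuousOn
  have hmax' : ∀ x, g x ≤ g x0 := by
    intro x
    by_cases hx : x ∈ closure U
    · exact hmax hx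
    · have h3 := hgn x hx
      have h4 := hf0 x0 hx0
      rw [← hgf x0 hx0] at h4
      linarith
  have hfill0 : Fillable (cmap g w κ x0) := by
    refine fillable_of_pos (adm_cmap hgc w κ x0)
      (-(∑ i, ContinuousLinearMap.proj (R := ℝ) (φ := fun _ : Fin (m + 2) => ℝ) i)) ?_
    intro u _
    have h3 : (-(∑ i, ContinuousLinearMap.proj (R := ℝ) (φ := fun _ : Fin (m + 2) => ℝ) i))
        (cmap g w κ x0 u) = ∑ i, (g x0 - g (x0 + κ • refl u (w i))) := by
      simp [cmap]
    rw [h3]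
    have h4 : ∀ i, 0 ≤ g x0 - g (x0 + κ • refl u (w i)) := fun i => by
      have := hmax' (x0 + κ • refl u (w i)); linarith
    apply lt_of_le_of_ne (Finset.sum_nonneg fun i _ => h4 i)
    intro h5
    apply hne x0 hx0 u
    have h6 := (Finset.sum_eq_zero_iff_of_nonneg fun i _ => h4 i).1 h5.symm
    funext i
    have h7 := h6 i (Finset.mem_univ i)
    simp only [cmap, Pi.zero_apply]
    linarith
  have hfillq : Fillable (cmap g w κ q) :=
    fillable_of_preconnected hUc.isPreconnected.closure (fun x u => cmap g w κ x u)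
      (fun x => adm_cmap hgc w κ x) (continuousOn_cmap hgc w κ) (fun x hx u _ => hne x hx u)
      hx0 hqc hfill0
  refine model_not_fillable hn hw (fillable_near (adm_cmap hgc w κ q) (adm_model w n) hfillq ?_)
  intro u hu t ht h0
  obtain ⟨ht0, ht1⟩ := ht
  have hcoord : ∀ i, (1 - t) * g (q + κ • refl u (w i)) + t * inner ℝ (refl u (w i)) n = 0 := by
    intro i
    have h3 := congrFun h0 i
    simp only [cmap, Pi.add_apply, Pi.smul_apply, smul_eq_mul, Pi.zero_apply, hgq, sub_zero] at h3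
    exact h3
  obtain ⟨i, hi⟩ := hc₀ (refl u n) (by rw [norm_refl, hn])
  rw [← inner_refl] at hi
  have hnorm : ‖κ • refl u (w i)‖ ≤ s := by
    rw [norm_smul, Real.norm_of_nonneg hκ.le, norm_refl]
    exact hκs i
  have hin : (inner ℝ (κ • refl u (w i)) n : ℝ) = κ * inner ℝ (refl u (w i)) n :=
    real_inner_smul_left _ _ _
  have ht : 0 < t := by
    apply lt_of_le_of_ne ht0
    intro h3
    apply hne q hqc u
    rw [← h3] at h0
    simpa using h0
  have hi2 := hcoord i
  rcases lt_trichotomy (inner ℝ (refl u (w i)) n : ℝ) 0 with ha | ha | ha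
  · rw [abs_of_neg ha] at hi
    have h3 : q + κ • refl u (w i) ∉ U := by
      apply h2 _ hnorm
      rw [hin]
      nlinarith
    have h4 : g (q + κ • refl u (w i)) ≤ 0 := by
      by_cases h5 : q + κ • refl u (w i) ∈ closure U
      · rw [hgf _ h5, hff]
        rw [hUo.frontier_eq]
        exact ⟨h5, h3⟩
      · exact (hgn _ h5).le
    nlinarith
  · rw [ha, abs_zero] at hi
    linarith
  · rw [abs_of_pos ha] at hi
    have h3 : q + κ • refl u (w i) ∈ U := by
      apply h1 _ hnorm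
      rw [hin]
      nlinarith
    have h4 : 0 ≤ g (q + κ • refl u (w i)) := by
      rw [hgf _ (subset_closure h3)]
      exact hf0 _ (subset_closure h3)
    nlinarith

theorem main {m : ℕ} {S : Fin (m + 3) → EuclideanSpace ℝ (Fin (m + 2))}
    (hS : AffineIndependent ℝ S) :
    ∃ ε : ℝ, 0 < ε ∧ ∀ M : Set (EuclideanSpace ℝ (Fin (m + 2))), IsCompact M → ∀ σ₀ : ℝ, 0 < σ₀ →
      (∀ s, 0 < s → s ≤ σ₀ → FlatAt M ε s) →
      ∃ σ : ℝ, 0 < σ ∧ ∀ τ : ℝ, 0 < τ → τ ≤ σ →
      ∀ f : EuclideanSpace ℝ (Fin (m + 2)) → ℝ, ContinuousOn f M → (∀ x ∈ M, 0 ≤ f x) →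
        (∀ x ∈ frontier M, f x = 0) →
        ∃ (g : EuclideanSpace ℝ (Fin (m + 2)) ≃ᵢ EuclideanSpace ℝ (Fin (m + 2))) (c : ℝ), 0 < c ∧
          (∀ i, g (c • S i) ∈ M) ∧ (∀ i j, f (g (c • S i)) = f (g (c • S j))) ∧
          Metric.diam (convexHull ℝ (Set.range fun i => g (c • S i))) = τ := by
  set w : Fin (m + 2) → EuclideanSpace ℝ (Fin (m + 2)) := fun i => S i.succ - S 0 with hw
  have hli : LinearIndependent ℝ w := by
    rw [affineIndependent_iff_linearIndependent_vsub ℝ S 0] at hS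
    exact hS.comp (fun i : Fin (m + 2) => (⟨i.succ, Fin.succ_ne_zero i⟩ :
      {x : Fin (m + 3) // x ≠ 0})) (by
        intro i j hij
        have := congrArg Subtype.val hij
        exact Fin.succ_injective _ this)
  have hspan : Submodule.span ℝ (Set.range w) = ⊤ :=
    hli.span_eq_top_of_card_eq_finrank (by simp)
  obtain ⟨c₀, hc₀pos, hc₀⟩ := exists_lower hspan
  set D := Metric.diam (range S) with hD
  have hbdd : Bornology.IsBounded (range S) := (finite_range S).isBounded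
  have hne : S 0 ≠ S 1 := fun h => by
    have := hS.injective h
    exact absurd this (by simp)
  have hDpos : 0 < D := (dist_pos.2 hne).trans_le
    (Metric.dist_le_diam_of_mem hbdd (mem_range_self _) (mem_range_self _))
  have hwD : ∀ i, ‖w i‖ ≤ D := by
    intro i
    rw [hw, ← dist_eq_norm]
    exact Metric.dist_le_diam_of_mem hbdd (mem_range_self _) (mem_range_self _)
  refine ⟨min (1 / 8) (c₀ / (7 * D)), by positivity, ?_⟩
  set ε := min (1 / 8) (c₀ / (7 * D)) with hε
  have hεpos : 0 < ε := by positivity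
  have hε1 : ε ≤ 1 / 8 := min_le_left _ _
  have hε2 : ε * (7 * D) ≤ c₀ := by
    rw [← le_div_iff₀ (by positivity)]
    exact min_le_right _ _
  intro M hM σ₀ hσ₀ hflat
  refine ⟨σ₀ / 2, by positivity, ?_⟩
  intro τ hτ hτσ f hf hf0 hff
  obtain ⟨p, n, hn, hp1, hp2⟩ := hflat (2 * τ) (by positivity) (by linarith)
  obtain ⟨U, q, hUo, hUc, hUM, hUf, hq, hq1, hq2⟩ := exists_flat_piece hM.isClosed hn
    (by positivity : 0 < 2 * τ) hεpos hε1 hp1 hp2
  have hcl : closure U ⊆ M := closure_minimal hUM hM.isClosed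
  have hUb : Bornology.IsBounded U := hM.isBounded.subset hUM
  set κ := τ / D with hκ
  have hκpos : 0 < κ := by positivity
  have hκD : κ * D = τ := by rw [hκ]; field_simp
  have hs2 : 2 * τ / 2 = τ := by ring
  rw [hs2] at hq1 hq2
  obtain ⟨x, u, hx, hxu, hxf⟩ := core hli hc₀pos hc₀ hUo hUc hUb (hf.mono hcl)
    (fun z hz => hf0 z (hcl hz)) (fun z hz => hff z (hUf hz)) hn hq (s := τ)
    (η := 3 * ε * (2 * τ)) hκpos
    (by
      intro i
      rw [← hκD]
      exact mul_le_mul_of_nonneg_left (hwD i) hκpos.le)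
    (by
      rw [← hκD]
      have h3 : 0 < κ * D := by positivity
      nlinarith)
    hq1 hq2
  set Y : Fin (m + 3) → EuclideanSpace ℝ (Fin (m + 2)) :=
    Fin.cons x (fun i => x + κ • refl u (w i)) with hY
  have hY0 : ∀ j, Y j = x + κ • refl u (S j - S 0) := by
    intro j
    refine Fin.cases ?_ (fun i => ?_) j
    · rw [hY, Fin.cons_zero, sub_self]
      have : refl u (0 : EuclideanSpace ℝ (Fin (m + 2))) = 0 := by
        rw [← norm_eq_zero, norm_refl, norm_zero]
      rw [this, smul_zero, add_zero]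
    · rw [hY, Fin.cons_succ]
  have hdist : ∀ i j, dist (Y i) (Y j) = κ * dist (S i) (S j) := by
    intro i j
    rw [hY0, hY0, dist_add_left, dist_eq_norm, ← smul_sub, ← refl_sub, norm_smul, norm_refl,
      Real.norm_of_nonneg hκpos.le, sub_sub_sub_cancel_right, ← dist_eq_norm]
  have hA : AffineIndependent ℝ (fun i => κ • S i) := by
    have h1 : (fun i => κ • S i) =
        (AffineEquiv.homothetyUnitsMulHom (0 : EuclideanSpace ℝ (Fin (m + 2)))
          (Units.mk0 κ hκpos.ne')) ∘ S := by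
      funext i
      simp [AffineMap.homothety_apply]
    rw [h1]
    exact (AffineEquiv.affineIndependent_iff _).2 hS
  obtain ⟨g, hg⟩ := Pool.Agent.InscribedSimplex.exists_isometry (k := m + 1)
    (A := fun i => κ • S i) (B := Y) hA (by
    intro i j
    rw [hdist i j, dist_smul₀, Real.norm_of_nonneg hκpos.le])
  have hg' : ∀ i, g (κ • S i) = Y i := hg
  have hYM : ∀ i, Y i ∈ M ∧ f (Y i) = f x := by
    intro i
    refine Fin.cases ?_ (fun i => ?_) i
    · rw [hY, Fin.cons_zero]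
      exact ⟨hcl hx, rfl⟩
    · rw [hY, Fin.cons_succ]
      exact ⟨hcl (hxu i), hxf i⟩
  refine ⟨g, κ, hκpos, ?_, ?_, ?_⟩
  · intro i
    rw [hg']; exact (hYM i).1
  · intro i j
    rw [hg', hg', (hYM i).2, (hYM j).2]
  · rw [convexHull_diam]
    have h1 : (range fun i => g (κ • S i)) = g '' (κ • range S) := by
      ext x
      constructor
      · rintro ⟨i, rfl⟩
        exact ⟨κ • S i, ⟨S i, mem_range_self i, rfl⟩, rfl⟩
      · rintro ⟨_, ⟨_, ⟨i, rfl⟩, rfl⟩, rfl⟩
        exact ⟨i, rfl⟩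
    rw [h1, IsometryEquiv.diam_image, diam_smul₀, Real.norm_of_nonneg hκpos.le, ← hD]
    exact hκD

end Pool.Agent.FPT
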