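import Pool.Agent.FPT.Defs

set_option autoImplicit false

open scoped BigOperators

namespace Pool.Agent.FPT

variable {E : Type*} [NormedAddCommGroup E] [InnerProductSpace ℝ E]

theorem refl_neg (u w : E) : refl (-u) w = refl u w := by
  unfold refl
  rw [inner_neg_left, norm_neg, smul_neg, ← neg_smul]
  congr 2
  ring

theorem refl_smul_left {r : ℝ} (hr : 0 < r) (u w : E) : refl (r • u) w = refl u w := by
  unfold refl
  rw [real_inner_smul_left, norm_smul, smul_smul, Real.norm_of_nonneg hr.le]
  congr 2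
  by_cases hu : ‖u‖ = 0
  · rw [hu]
    simp
  · field_simp

theorem refl_zero_left (w : E) : refl (0 : E) w = w := by
  unfold refl
  rw [smul_zero, sub_zero]

theorem inner_refl_aux (u v w : E) :
    (inner ℝ (refl u v) w : ℝ) = inner ℝ v w - 2 * inner ℝ u v / ‖u‖ ^ 2 * inner ℝ u w := by
  unfold refl
  rw [inner_sub_left, real_inner_smul_left]

/-- Reflections are symmetric. -/
theorem inner_refl (u v w : E) : (inner ℝ (refl u v) w : ℝ) = inner ℝ v (refl u w) := by
  rw [inner_refl_aux, real_inner_comm (refl u w) v, inner_refl_aux, real_inner_comm v w]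
  ring

theorem refl_refl (u w : E) : refl u (refl u w) = w := by
  by_cases hu : u = 0
  · rw [hu, refl_zero_left, refl_zero_left]
  · have hn : ‖u‖ ≠ 0 := norm_ne_zero_iff.2 hu
    have h1 : (inner ℝ u (refl u w) : ℝ) = - inner ℝ u w := by
      unfold refl
      rw [inner_sub_right, real_inner_smul_right, real_inner_self_eq_norm_sq]
      field_simp
      ring
    have h2 : refl u (refl u w) = refl u w - (2 * inner ℝ u (refl u w) / ‖u‖ ^ 2) • u := rfl
    rw [h2, h1]
    unfold refl
    rw [sub_sub, ← add_smul]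
    have h3 : 2 * (inner ℝ u w : ℝ) / ‖u‖ ^ 2 + 2 * -inner ℝ u w / ‖u‖ ^ 2 = 0 := by ring
    rw [h3, zero_smul, sub_zero]

theorem norm_refl (u w : E) : ‖refl u w‖ = ‖w‖ := by
  have h1 : (inner ℝ (refl u w) (refl u w) : ℝ) = inner ℝ w w := by
    rw [inner_refl, refl_refl]
  rw [real_inner_self_eq_norm_sq, real_inner_self_eq_norm_sq] at h1
  exact (sq_eq_sq₀ (norm_nonneg _) (norm_nonneg _)).1 h1

theorem refl_sub (u v w : E) : refl u (v - w) = refl u v - refl u w := by
  unfold refl
  rw [inner_sub_right, mul_sub, sub_div, sub_smul]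
  abel

theorem continuousOn_refl (w : E) : ContinuousOn (fun u => refl u w) {0}ᶜ := by
  unfold refl
  refine continuousOn_const.sub (ContinuousOn.smul (ContinuousOn.div ?_ ?_ ?_) continuousOn_id)
  · exact (continuous_const.mul (continuous_id.inner continuous_const)).continuousOn
  · exact (continuous_norm.pow 2).continuousOn
  · intro u hu
    exact pow_ne_zero 2 (norm_ne_zero_iff.2 hu)

theorem continuousOn_cmap {d : ℕ} {g : E → ℝ} (hg : Continuous g) (w : Fin d → E) (κ : ℝ) :
    ContinuousOn (fun z : E × E => cmap g w κ z.1 z.2) {z | z.2 ≠ 0} := by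
  refine continuousOn_pi.2 fun i => ?_
  have h1 : ContinuousOn (fun z : E × E => refl z.2 (w i)) {z | z.2 ≠ 0} :=
    (continuousOn_refl (w i)).comp continuousOn_snd fun z hz => hz
  have h2 : ContinuousOn (fun z : E × E => g (z.1 + κ • refl z.2 (w i))) {z | z.2 ≠ 0} :=
    hg.comp_continuousOn (continuousOn_fst.add (h1.const_smul κ))
  exact h2.sub (hg.comp_continuousOn continuousOn_fst)

/-- The configuration map is admissible, jointly continuous. -/
theorem adm_cmap {d : ℕ} {g : E → ℝ} (hg : Continuous g) (w : Fin d → E) (κ : ℝ) (x : E) :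
    Adm (cmap g w κ x) where
  cont := by
    have h1 : ContinuousOn (fun u : E => ((x, u) : E × E)) {0}ᶜ :=
      (continuous_const.prodMk continuous_id).continuousOn
    exact (continuousOn_cmap hg w κ).comp h1 fun u hu => hu
  even u := by
    funext i
    unfold cmap
    rw [refl_neg]
  hom r hr u := by
    funext i
    unfold cmap
    rw [refl_smul_left hr]

/-- The model map at a flat point. -/
theorem adm_model {d : ℕ} (w : Fin d → E) (n : E) :
    Adm (fun u : E => fun i => (inner ℝ (refl u (w i)) n : ℝ)) where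
  cont := by
    refine continuousOn_pi.2 fun i => ?_
    exact (continuousOn_refl (w i)).inner continuousOn_const
  even u := by
    funext i
    rw [refl_neg]
  hom r hr u := by
    funext i
    rw [refl_smul_left hr]

/-- A basis sees every unit vector. -/
theorem exists_lower [FiniteDimensional ℝ E] {d : ℕ} {w : Fin d → E}
    (hw : Submodule.span ℝ (Set.range w) = ⊤) :
    ∃ c : ℝ, 0 < c ∧ ∀ y : E, ‖y‖ = 1 → ∃ i, c ≤ |(inner ℝ (w i) y : ℝ)| := by
  -- the sum of the absolute values is continuous and positive on the unit sphere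
  have hcont : Continuous fun y : E => ∑ i, |(inner ℝ (w i) y : ℝ)| :=
    continuous_finsetSum _ fun i _ => (continuous_const.inner continuous_id).abs
  have hpos : ∀ y : E, ‖y‖ = 1 → 0 < ∑ i, |(inner ℝ (w i) y : ℝ)| := by
    intro y hy
    by_contra hcon
    have h0 : ∑ i, |(inner ℝ (w i) y : ℝ)| = 0 :=
      le_antisymm (not_lt.1 hcon) (Finset.sum_nonneg fun i _ => abs_nonneg _)
    have h1 : ∀ i, (inner ℝ (w i) y : ℝ) = 0 := fun i =>
      abs_eq_zero.1 ((Finset.sum_eq_zero_iff_of_nonneg fun i _ => abs_nonneg _).1 h0 i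
        (Finset.mem_univ i))
    have h2 : ∀ v ∈ Submodule.span ℝ (Set.range w), (inner ℝ v y : ℝ) = 0 := by
      intro v hv
      induction hv using Submodule.span_induction with
      | mem v hv =>
        obtain ⟨i, rfl⟩ := hv
        exact h1 i
      | zero => exact inner_zero_left _
      | add v v' _ _ h h' => rw [inner_add_left, h, h', add_zero]
      | smul a v _ h => rw [real_inner_smul_left, h, mul_zero]
    have h3 : (inner ℝ y y : ℝ) = 0 := h2 y (by rw [hw]; exact Submodule.mem_top)
    rw [real_inner_self_eq_norm_sq, hy] at h3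
    norm_num at h3
  rcases (Metric.sphere (0 : E) 1).eq_empty_or_nonempty with hemp | hne
  · refine ⟨1, one_pos, fun y hy => ?_⟩
    have : y ∈ Metric.sphere (0 : E) 1 := by rw [mem_sphere_zero_iff_norm]; exact hy
    rw [hemp] at this
    exact absurd this (Set.notMem_empty y)
  · obtain ⟨y₀, hy₀, hmin⟩ := (isCompact_sphere (0 : E) 1).exists_isMinOn hne hcont.continuousOn
    have hy₀' : ‖y₀‖ = 1 := mem_sphere_zero_iff_norm.1 hy₀
    have hm := hpos y₀ hy₀'
    have hd : 0 < d := by
      rcases Nat.eq_zero_or_pos d with h | h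
      · subst h
        rw [Finset.univ_eq_empty, Finset.sum_empty] at hm
        exact absurd hm (lt_irrefl _)
      · exact h
    have hd' : (0 : ℝ) < d := Nat.cast_pos.2 hd
    refine ⟨(∑ i, |(inner ℝ (w i) y₀ : ℝ)|) / d, div_pos hm hd', fun y hy => ?_⟩
    by_contra hcon
    push Not at hcon
    have h1 : (∑ i, |(inner ℝ (w i) y₀ : ℝ)|) ≤ ∑ i, |(inner ℝ (w i) y : ℝ)| :=
      hmin (mem_sphere_zero_iff_norm.2 hy)
    have h2 : ∑ i, |(inner ℝ (w i) y : ℝ)| <
        ∑ _i : Fin d, (∑ i, |(inner ℝ (w i) y₀ : ℝ)|) / d := by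
      refine Finset.sum_lt_sum_of_nonempty ?_ fun i _ => hcon i
      have : Nonempty (Fin d) := ⟨⟨0, hd⟩⟩
      exact Finset.univ_nonempty
    rw [Finset.sum_const, Finset.card_univ, Fintype.card_fin, nsmul_eq_mul,
      mul_div_cancel₀ _ hd'.ne'] at h2
    exact absurd h1 (not_le.2 h2)

end Pool.Agent.FPT
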