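import Pool.Agent.FPT.NoFillCoord
import Pool.Agent.FPT.Refl

set_option autoImplicit false

open scoped BigOperators

namespace Pool.Agent.FPT

/-- Coordinate-free version of `no_fill_coord`: choose an orthonormal basis whose last vector is `n`
(so `d = m + 2`); the Euclidean norm is at least the sup norm. -/
theorem no_fill {m : ℕ} {n : EuclideanSpace ℝ (Fin (m + 2))} (hn : ‖n‖ = 1)
    (G : EuclideanSpace ℝ (Fin (m + 2)) → EuclideanSpace ℝ (Fin (m + 2))) (hG : Continuous G)
    (he : ∀ x, G (-x) = G x) (hne : ∀ x, G x ≠ 0)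
    (hb : ∀ x, 1 ≤ ‖x‖ → G x = refl x n) : False := by
  classical
  have hv : Orthonormal ℝ (({Fin.last (m + 1)} : Set (Fin (m + 2))).restrict
      (fun _ => n : Fin (m + 2) → EuclideanSpace ℝ (Fin (m + 2)))) := by
    constructor
    · intro i
      exact hn
    · intro i j hij
      exact absurd (Subtype.ext (i.2.trans j.2.symm)) hij
  obtain ⟨b, hbn⟩ := hv.exists_orthonormalBasis_extension_of_card_eq
    (by simp : Module.finrank ℝ (EuclideanSpace ℝ (Fin (m + 2))) = Fintype.card (Fin (m + 2)))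
  have hlast : b (Fin.last (m + 1)) = n := hbn _ rfl
  let Y : (Fin (m + 2) → ℝ) → EuclideanSpace ℝ (Fin (m + 2)) := fun x => ∑ j, x j • b j
  have hYc : Continuous Y := by
    refine continuous_finsetSum _ fun j _ => ?_
    exact (continuous_apply j).smul continuous_const
  have hYneg : ∀ x, Y (-x) = - Y x := by
    intro x
    simp only [Y, Pi.neg_apply, neg_smul, Finset.sum_neg_distrib]
  have hYin : ∀ x i, (inner ℝ (b i) (Y x) : ℝ) = x i := by
    intro x i
    simp only [Y, inner_sum, inner_smul_right]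
    rw [Finset.sum_eq_single i]
    · rw [real_inner_self_eq_norm_sq, b.norm_eq_one i]
      ring
    · intro j _ hj
      rw [b.inner_eq_zero (Ne.symm hj), mul_zero]
    · intro h
      exact absurd (Finset.mem_univ i) h
  have hYnorm : ∀ x, ‖Y x‖ ^ 2 = ∑ j, x j ^ 2 := by
    intro x
    rw [← real_inner_self_eq_norm_sq]
    conv_lhs => rw [show (inner ℝ (Y x) (Y x) : ℝ) = inner ℝ (∑ j, x j • b j) (Y x) from rfl]
    rw [sum_inner]
    refine Finset.sum_congr rfl fun j _ => ?_
    rw [real_inner_smul_left, hYin]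
    ring
  have hYn : ∀ x, (inner ℝ (Y x) n : ℝ) = x (Fin.last (m + 1)) := by
    intro x
    rw [real_inner_comm, ← hlast, hYin]
  refine no_fill_coord (m := m) (fun x i => inner ℝ (b i) (G (Y x))) ?_ ?_ ?_ ?_
  · refine continuous_pi fun i => ?_
    exact continuous_const.inner (hG.comp hYc)
  · intro x
    funext i
    simp only [hYneg, he]
  · intro x h0
    apply hne (Y x)
    rw [← b.sum_repr' (G (Y x))]
    refine Finset.sum_eq_zero fun i _ => ?_
    have h1 := congrFun h0 i
    simp only [Pi.zero_apply] at h1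
    rw [h1, zero_smul]
  · intro x hx1 hx2
    obtain ⟨i₀, hi₀⟩ := hx1
    have hsq : (1 : ℝ) ≤ ‖Y x‖ ^ 2 := by
      rw [hYnorm]
      have h1 : x i₀ ^ 2 ≤ ∑ j, x j ^ 2 :=
        Finset.single_le_sum (f := fun j => x j ^ 2) (fun j _ => sq_nonneg _) (Finset.mem_univ i₀)
      have h2 : x i₀ ^ 2 = 1 := by rw [← sq_abs, hi₀]; norm_num
      linarith
    have hnorm : 1 ≤ ‖Y x‖ := by
      by_contra hlt
      push Not at hlt
      nlinarith [norm_nonneg (Y x)]
    refine ⟨1 / ‖Y x‖ ^ 2, by positivity, fun i => ?_⟩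
    have hpos : (0 : ℝ) < ‖Y x‖ ^ 2 := by linarith
    have hG1 : (inner ℝ (b i) (G (Y x)) : ℝ) =
        inner ℝ (b i) n - 2 * x (Fin.last (m + 1)) / ‖Y x‖ ^ 2 * x i := by
      rw [hb (Y x) hnorm]
      unfold refl
      rw [inner_sub_right, real_inner_smul_right, hYin, hYn]
    show (inner ℝ (b i) (G (Y x)) : ℝ) = _
    rw [hG1]
    unfold H
    by_cases hi : i = Fin.last (m + 1)
    · rw [if_pos hi, hi, hlast, real_inner_self_eq_norm_sq, hn]
      have h3 : ‖Y x‖ ^ 2 = (∑ j : Fin (m + 1), x j.castSucc ^ 2) + x (Fin.last (m + 1)) ^ 2 := by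
        rw [hYnorm, Fin.sum_univ_castSucc]
      have h4 : (∑ j : Fin (m + 1), x j.castSucc ^ 2) = ‖Y x‖ ^ 2 - x (Fin.last (m + 1)) ^ 2 := by
        linarith
      rw [h4]
      field_simp
      ring
    · rw [if_neg hi]
      have h5 : (inner ℝ (b i) n : ℝ) = 0 := by
        rw [← hlast]
        exact b.inner_eq_zero hi
      rw [h5]
      field_simp
      ring

/-- The model map of a simplex at a flat point is not fillable: compose a filling with the linear
isomorphism `T` from `ℝ^d` to the Euclidean space that sends `(⟪w i, y⟫)_i` to `y`. -/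
theorem model_not_fillable {m : ℕ} {n : EuclideanSpace ℝ (Fin (m + 2))} (hn : ‖n‖ = 1)
    {w : Fin (m + 2) → EuclideanSpace ℝ (Fin (m + 2))} (hw : LinearIndependent ℝ w) :
    ¬ Fillable (fun u : EuclideanSpace ℝ (Fin (m + 2)) =>
      fun i => (inner ℝ (refl u (w i)) n : ℝ)) := by
  rintro ⟨G₀, hGc, hGe, hG0, hGb⟩
  let A : EuclideanSpace ℝ (Fin (m + 2)) →ₗ[ℝ] (Fin (m + 2) → ℝ) :=
    LinearMap.pi fun i => (innerSL ℝ (w i)).toLinearMap
  have hA : ∀ y i, A y i = inner ℝ (w i) y := fun y i => rfl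
  have hspan : Submodule.span ℝ (Set.range w) = ⊤ :=
    hw.span_eq_top_of_card_eq_finrank (by simp)
  have hinj : Function.Injective A := by
    rw [← LinearMap.ker_eq_bot, LinearMap.ker_eq_bot']
    intro y hy
    have h1 : ∀ z ∈ Submodule.span ℝ (Set.range w), (inner ℝ z y : ℝ) = 0 := by
      intro z hz
      induction hz using Submodule.span_induction with
      | mem z hz =>
        obtain ⟨i, rfl⟩ := hz
        rw [← hA, hy]
        rfl
      | zero => exact inner_zero_left y
      | add z z' _ _ h h' => rw [inner_add_left, h, h', add_zero]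
      | smul r z _ h => rw [real_inner_smul_left, h, mul_zero]
    have h2 := h1 y (by rw [hspan]; exact Submodule.mem_top)
    exact inner_self_eq_zero.1 h2
  let L : EuclideanSpace ℝ (Fin (m + 2)) ≃ₗ[ℝ] (Fin (m + 2) → ℝ) :=
    LinearMap.linearEquivOfInjective A hinj (by simp)
  have hL : ∀ y, L y = A y := fun y => rfl
  have hLc : Continuous L.symm := LinearMap.continuous_of_finiteDimensional
    (L.symm : (Fin (m + 2) → ℝ) →ₗ[ℝ] EuclideanSpace ℝ (Fin (m + 2)))
  refine no_fill hn (fun x => L.symm (G₀ x)) (hLc.comp hGc) ?_ ?_ ?_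
  · intro x
    simp only [hGe]
  · intro x h0
    apply hG0 x
    have := congrArg L h0
    rwa [L.apply_symm_apply, map_zero] at this
  · intro x hx
    rw [LinearEquiv.symm_apply_eq, hL, hGb x hx]
    funext i
    rw [hA]
    exact inner_refl x (w i) n

end Pool.Agent.FPT
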