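import Pool.Agent.FPT.Defs

set_option autoImplicit false

open scoped BigOperators

namespace Pool.Agent.FPT

/-- The reversal of the positions below the last one. -/
private def wrev (m : ℕ) (j : Fin (m + 2)) : Fin (m + 2) :=
  if h : (j : ℕ) < m + 1 then ⟨m - j, by omega⟩ else j

private theorem wrev_val_lt {m : ℕ} {j : Fin (m + 2)} (h : (j : ℕ) < m + 1) :
    (wrev m j : ℕ) = m - j := by
  unfold wrev
  rw [dif_pos h]

private theorem wrev_val_ge {m : ℕ} {j : Fin (m + 2)} (h : ¬ (j : ℕ) < m + 1) :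
    wrev m j = j := by
  unfold wrev
  rw [dif_neg h]

private theorem wrev_invol (m : ℕ) : Function.Involutive (wrev m) := by
  intro j
  by_cases h : (j : ℕ) < m + 1
  · apply Fin.ext
    have h1 := wrev_val_lt h
    have h2 : (wrev m j : ℕ) < m + 1 := by omega
    rw [wrev_val_lt h2]
    omega
  · rw [wrev_val_ge h, wrev_val_ge h]

private def wperm (m : ℕ) : Equiv.Perm (Fin (m + 2)) := (wrev_invol m).toPerm

private theorem wperm_apply (m : ℕ) (j : Fin (m + 2)) : wperm m j = wrev m j := rfl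

/-- The reflected base point. -/
private def wbase (m : ℕ) (v : Fin (m + 2) → ℤ) : Fin (m + 2) → ℤ :=
  fun j => if j = hdir m then 0 else - v j - 1

private theorem wvert {m : ℕ} {v : Fin (m + 2) → ℤ} {ρ : Equiv.Perm (Fin (m + 2))}
    (hv : v (hdir m) = 0) (hρ : ρ (hdir m) = Fin.last (m + 1)) {k : ℕ} (hk : k ≤ m + 1) :
    vert (wbase m v) (ρ.trans (wperm m)) k = - vert v ρ (m + 1 - k) := by
  funext j
  have hL : vert (wbase m v) (ρ.trans (wperm m)) k j =
      (if j = hdir m then 0 else - v j - 1) + if (wrev m (ρ j) : ℕ) < k then 1 else 0 := rfl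
  have hR : (- vert v ρ (m + 1 - k)) j =
      -(v j + if (ρ j : ℕ) < m + 1 - k then 1 else 0) := rfl
  rw [hL, hR]
  by_cases hj : j = hdir m
  · subst hj
    rw [hρ, hv]
    have h1 : wrev m (Fin.last (m + 1)) = Fin.last (m + 1) := wrev_val_ge (by simp)
    rw [h1]
    have h2 : ¬ ((Fin.last (m + 1) : Fin (m + 2)) : ℕ) < k := by
      rw [Fin.val_last]; omega
    have h3 : ¬ ((Fin.last (m + 1) : Fin (m + 2)) : ℕ) < m + 1 - k := by
      rw [Fin.val_last]; omega
    rw [if_neg h2, if_neg h3]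
    simp
  · have hlt : (ρ j : ℕ) < m + 1 := by
      have h1 : ρ j ≠ Fin.last (m + 1) := by
        intro h
        exact hj (ρ.injective (h.trans hρ.symm))
      have h2 := (ρ j).isLt
      have h3 : (ρ j : ℕ) ≠ m + 1 := by
        intro h
        apply h1
        apply Fin.ext
        rw [Fin.val_last]
        exact h
      omega
    rw [if_neg hj, wrev_val_lt hlt]
    by_cases hc : m - (ρ j : ℕ) < k
    · have hd : ¬ (ρ j : ℕ) < m + 1 - k := by omega
      rw [if_pos hc, if_neg hd]
      ring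
    · have hd : (ρ j : ℕ) < m + 1 - k := by omega
      rw [if_neg hc, if_pos hd]
      ring

private theorem wlast {m : ℕ} (ρ : Equiv.Perm (Fin (m + 2)))
    (h : ρ (hdir m) = Fin.last (m + 1)) :
    (ρ.trans (wperm m)) (hdir m) = Fin.last (m + 1) := by
  rw [Equiv.trans_apply, h, wperm_apply]
  exact wrev_val_ge (by simp)

private theorem wperm_trans_trans {m : ℕ} (ρ : Equiv.Perm (Fin (m + 2))) :
    (ρ.trans (wperm m)).trans (wperm m) = ρ := by
  ext j
  simp only [Equiv.trans_apply, wperm_apply]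
  rw [wrev_invol m]

private theorem wbase_wbase {m : ℕ} {v : Fin (m + 2) → ℤ} (hv : v (hdir m) = 0) :
    wbase m (wbase m v) = v := by
  funext j
  unfold wbase
  by_cases hj : j = hdir m
  · subst hj
    rw [if_pos rfl, hv]
  · simp only [if_neg hj]
    ring

private theorem wfull {m : ℕ} (lab : (Fin (m + 2) → ℤ) → ℕ) (heven : ∀ z, lab (-z) = lab z)
    {v : Fin (m + 2) → ℤ} {ρ : Equiv.Perm (Fin (m + 2))}
    (hv : v (hdir m) = 0) (hρ : ρ (hdir m) = Fin.last (m + 1)) (h : FullFacet lab v ρ (m + 2)) :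
    FullFacet lab (wbase m v) (ρ.trans (wperm m)) (m + 2) := by
  intro l hl
  obtain ⟨k, hk, hk2, hlk⟩ := h l hl
  refine ⟨m + 1 - k, by omega, by omega, ?_⟩
  rw [wvert hv hρ (by omega), heven]
  have e : m + 1 - (m + 1 - k) = k := by omega
  rw [e]
  exact hlk

private theorem wbase_hdir {m : ℕ} (v : Fin (m + 2) → ℤ) : wbase m v (hdir m) = 0 := by
  unfold wbase
  rw [if_pos rfl]

private theorem wgood {m : ℕ} (lab : (Fin (m + 2) → ℤ) → ℕ) (heven : ∀ z, lab (-z) = lab z)
    {v : Fin (m + 2) → ℤ} {ρ : Equiv.Perm (Fin (m + 2))} (hv : v (hdir m) = 0) :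
    ((ρ.trans (wperm m)) (hdir m) = Fin.last (m + 1) ∧
      FullFacet lab (wbase m v) (ρ.trans (wperm m)) (m + 2)) ↔
    (ρ (hdir m) = Fin.last (m + 1) ∧ FullFacet lab v ρ (m + 2)) := by
  constructor
  · rintro ⟨h1, h2⟩
    have h3 := wlast _ h1
    rw [wperm_trans_trans] at h3
    have h4 := wfull lab heven (wbase_hdir v) h1 h2
    rw [wperm_trans_trans, wbase_wbase hv] at h4
    exact ⟨h3, h4⟩
  · rintro ⟨h1, h2⟩
    exact ⟨wlast _ h1, wfull lab heven hv h1 h2⟩

private theorem mem_face_wall {m : ℕ} {N : ℤ} {v : Fin (m + 2) → ℤ} :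
    v ∈ face (hlo m N) (hhi m N) (hdir m) 0 ↔
      v (hdir m) = 0 ∧ ∀ j, j ≠ hdir m → -N ≤ v j ∧ v j < N := by
  unfold face
  rw [Fintype.mem_piFinset]
  constructor
  · intro h
    constructor
    · have := h (hdir m)
      simpa using this
    · intro j hj
      have := h j
      rw [if_neg hj, Finset.mem_Ico] at this
      simpa [hlo, hhi, hj] using this
  · rintro ⟨h1, h2⟩ j
    by_cases hj : j = hdir m
    · rw [if_pos hj, Finset.mem_singleton, hj, h1]
    · rw [if_neg hj, Finset.mem_Ico]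
      simpa [hlo, hhi, hj] using h2 j hj

/-- The wall `x_h = 0` of the half box contributes an even number, by the antipodal map
`z ↦ -z`, which acts without fixed points on the pairs `(v, ρ)`, `v` in the face, `ρ h = last`,
`FullFacet lab v ρ (m + 2)`: the image is `(v', ρ')`, `v' j = - v j - 1` and `ρ' j = m - ρ j` for
`j ≠ h` (`ρ j < m + 1`), `v' h = 0`, `ρ' h = last`; indeed
`vert v' ρ' k = - vert v ρ (m + 1 - k)` for `k ≤ m + 1`. -/
theorem wall_even {m : ℕ} (lab : (Fin (m + 2) → ℤ) → ℕ) (heven : ∀ z, lab (-z) = lab z)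
    (N : ℤ) :
    ∑ v ∈ face (hlo m N) (hhi m N) (hdir m) 0, chainCount (m := m + 1) lab (hdir m) v = 0 := by
  classical
  have e : ∀ v : Fin (m + 2) → ℤ, chainCount (m := m + 1) lab (hdir m) v =
      ∑ ρ : Equiv.Perm (Fin (m + 2)),
        if (ρ (hdir m) = Fin.last (m + 1) ∧ FullFacet lab v ρ (m + 2)) then (1 : ZMod 2) else 0 := by
    intro v
    unfold chainCount
    rw [Finset.sum_boole]
  rw [Finset.sum_congr rfl fun v _ => e v, ← Finset.sum_product']
  refine Finset.sum_involution
    (fun a _ => (wbase m a.1, a.2.trans (wperm m))) ?_ ?_ ?_ ?_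
  · intro a ha
    rw [Finset.mem_product, mem_face_wall] at ha
    have hv := ha.1.1
    simp only
    by_cases hg : (a.2 (hdir m) = Fin.last (m + 1) ∧ FullFacet lab a.1 a.2 (m + 2))
    · rw [if_pos hg, if_pos ((wgood lab heven hv).mpr hg)]
      decide
    · rw [if_neg hg, if_neg (fun h => hg ((wgood lab heven hv).mp h))]
      decide
  · intro a ha _ heq
    have h1 : wbase m a.1 = a.1 := congrArg Prod.fst heq
    have h2 := congrFun h1 (Fin.last (m + 1))
    have h3 : Fin.last (m + 1) ≠ hdir m := by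
      intro h
      have := congrArg Fin.val h
      simp [hdir] at this
    unfold wbase at h2
    rw [if_neg h3] at h2
    omega
  · intro a ha
    rw [Finset.mem_product, mem_face_wall] at ha ⊢
    refine ⟨⟨wbase_hdir _, ?_⟩, Finset.mem_univ _⟩
    intro j hj
    have h0 := ha.1.2 j hj
    have h1 : wbase m a.1 j = - a.1 j - 1 := by
      unfold wbase
      rw [if_neg hj]
    show -N ≤ wbase m a.1 j ∧ wbase m a.1 j < N
    rw [h1]
    omega
  · intro a ha
    rw [Finset.mem_product, mem_face_wall] at ha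
    simp only [wperm_trans_trans, wbase_wbase ha.1.1]

end Pool.Agent.FPT
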