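import Pool.Agent.FPT.Stokes
import Pool.Agent.FPT.Wall
import Pool.Agent.FPT.EvalA
import Pool.Agent.FPT.EvalB

set_option autoImplicit false

open scoped BigOperators

namespace Pool.Agent.FPT

/-- Combination of `stokes`, `wall_even`, `eval_last`, `eval_side`, `eval_top` for the half box. -/
theorem no_labelling {m : ℕ} (lab : (Fin (m + 2) → ℤ) → ℕ) (hlab : ∀ z, lab z ≤ m + 2)
    (heven : ∀ z, lab (-z) = lab z) {N : ℤ} (hN : 0 < N) (hb : BdryLab N lab)
    (hno : ∀ v : Fin (m + 2) → ℤ, (∀ j, -N ≤ v j ∧ v j < N) → ∀ ρ, ¬ FullSimplex lab v ρ) :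
    False := by
  have h1 : ∀ j, hlo m N j ≤ hhi m N j := by
    intro j
    simp only [hlo, hhi]
    split_ifs <;> omega
  have h2 : ∀ v : Fin (m + 2) → ℤ, (∀ j, hlo m N j ≤ v j ∧ v j < hhi m N j) →
      ∀ ρ, ¬ FullSimplex lab v ρ := by
    intro v hv ρ
    refine hno v (fun j => ?_) ρ
    have := hv j
    simp only [hlo, hhi] at this
    split_ifs at this <;> omega
  have hs := stokes (m := m + 1) lab hlab (hlo m N) (hhi m N) h1 h2
  rw [Finset.sum_eq_single (hdir m)] at hs
  · have e1 : hlo m N (hdir m) = 0 := by simp [hlo]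
    have e2 : hhi m N (hdir m) = N := rfl
    rw [e1, e2, wall_even lab heven N, eval_top lab hN hb, zero_add] at hs
    exact one_ne_zero hs
  · intro i _ hi
    have e1 : hlo m N i = -N := by simp [hlo, hi]
    have e2 : hhi m N i = N := rfl
    rw [e1, e2]
    by_cases hl : i = Fin.last (m + 1)
    · subst hl
      rw [Finset.sum_eq_zero fun v hv => eval_last lab hN hb (Or.inr rfl) hv,
        Finset.sum_eq_zero fun v hv => eval_last lab hN hb (Or.inl rfl) hv, add_zero]
    · rw [Finset.sum_eq_zero fun v hv => eval_side lab hN hb (Or.inr rfl) hl hi hv,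
        Finset.sum_eq_zero fun v hv => eval_side lab hN hb (Or.inl rfl) hl hi hv, add_zero]
  · intro h
    exact absurd (Finset.mem_univ _) h

open Classical in
private noncomputable def firstPos {n : ℕ} (y : Fin n → ℝ) : ℕ :=
  if h : ∃ k : ℕ, ∃ hk : k < n, 0 < y ⟨k, hk⟩ then Nat.find h else n

private theorem firstPos_le {n : ℕ} (y : Fin n → ℝ) : firstPos y ≤ n := by
  unfold firstPos
  split_ifs with h
  · obtain ⟨hk, _⟩ := Nat.find_spec h
    exact hk.le
  · exact le_rfl

private theorem firstPos_eq_iff {n : ℕ} (y : Fin n → ℝ) (i : Fin n) :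
    firstPos y = (i : ℕ) ↔ 0 < y i ∧ ∀ k < i, y k ≤ 0 := by
  unfold firstPos
  split_ifs with h
  · rw [Nat.find_eq_iff]
    constructor
    · rintro ⟨⟨_, h1⟩, h2⟩
      refine ⟨h1, fun k hk => ?_⟩
      have := h2 k hk
      by_contra hc
      exact this ⟨k.2, not_le.1 hc⟩
    · rintro ⟨h1, h2⟩
      refine ⟨⟨i.2, h1⟩, fun k hk => ?_⟩
      rintro ⟨hk', hp⟩
      exact absurd hp (not_lt.2 (h2 ⟨k, hk'⟩ hk))
  · constructor
    · intro hn
      exact absurd hn i.2.ne'
    · rintro ⟨h1, _⟩
      exact absurd ⟨i, i.2, h1⟩ h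

private theorem firstPos_eq_n {n : ℕ} (y : Fin n → ℝ) (hy : firstPos y = n) (i : Fin n) :
    y i ≤ 0 := by
  unfold firstPos at hy
  split_ifs at hy with h
  · obtain ⟨hk, _⟩ := Nat.find_spec h
    omega
  · by_contra hc
    exact h ⟨i, i.2, not_le.1 hc⟩

private theorem H_castSucc {m : ℕ} (x : Fin (m + 2) → ℝ) (k : Fin (m + 1)) :
    H x k.castSucc = -(2 * x (Fin.last (m + 1)) * x k.castSucc) := by
  unfold H
  rw [if_neg (Fin.castSucc_lt_last k).ne]

private theorem H_last {m : ℕ} (x : Fin (m + 2) → ℝ) :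
    H x (Fin.last (m + 1)) =
      (∑ j : Fin (m + 1), x j.castSucc ^ 2) - x (Fin.last (m + 1)) ^ 2 := by
  unfold H
  rw [if_pos rfl]

/-- No even continuous nowhere zero map of `ℝ^(m+2)` is a positive multiple of `H` on the boundary
of the cube.  (`μ > 0` a lower bound of the sup norm of `G` on the cube, `N` so large that `G` varies
by less than `μ` on cells of size `1/N`; `lab z` = first `i` with `G (z/N) i > 0`, or `m + 2`; a full
simplex would give a point with `|G| < μ`.) -/
theorem no_fill_coord {m : ℕ} (G : (Fin (m + 2) → ℝ) → (Fin (m + 2) → ℝ)) (hG : Continuous G)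
    (he : ∀ x, G (-x) = G x) (hne : ∀ x, G x ≠ 0)
    (hb : ∀ x : Fin (m + 2) → ℝ, (∃ i, |x i| = 1) → (∀ j, |x j| ≤ 1) →
      ∃ c : ℝ, 0 < c ∧ ∀ i, G x i = c * H x i) : False := by
  have hK : IsCompact (Metric.closedBall (0 : Fin (m + 2) → ℝ) 1) := isCompact_closedBall 0 1
  obtain ⟨x0, hx0, hmin⟩ := hK.exists_isMinOn ⟨0, Metric.mem_closedBall_self zero_le_one⟩
    (hG.norm.continuousOn)
  set μ : ℝ := ‖G x0‖ with hμ
  have hμ0 : 0 < μ := norm_pos_iff.2 (hne x0)
  have hmin' : ∀ x ∈ Metric.closedBall (0 : Fin (m + 2) → ℝ) 1, μ ≤ ‖G x‖ := fun x hx => hmin hx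
  have huc := hK.uniformContinuousOn_of_continuous hG.continuousOn
  rw [Metric.uniformContinuousOn_iff] at huc
  obtain ⟨δ, hδ, hd⟩ := huc μ hμ0
  obtain ⟨N', hN'⟩ := exists_nat_gt (1 / δ)
  have hNpos' : (0 : ℝ) < N' := lt_of_le_of_lt (by positivity) hN'
  set N : ℤ := (N' : ℤ) with hNdef
  have hNR : ((N : ℤ) : ℝ) = (N' : ℝ) := by simp [hNdef]
  have hNr : (0 : ℝ) < (N : ℝ) := by rw [hNR]; exact hNpos'
  have hN : 0 < N := by exact_mod_cast hNr
  have hNδ : 1 / (N : ℝ) < δ := by
    rw [hNR, div_lt_iff₀ hNpos']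
    rw [div_lt_iff₀ hδ] at hN'
    linarith
  set sc : (Fin (m + 2) → ℤ) → (Fin (m + 2) → ℝ) := fun z j => (z j : ℝ) / (N : ℝ) with hsc
  set lab : (Fin (m + 2) → ℤ) → ℕ := fun z => firstPos (G (sc z)) with hlabdef
  have hball : ∀ z : Fin (m + 2) → ℤ, (∀ j, |z j| ≤ N) →
      sc z ∈ Metric.closedBall (0 : Fin (m + 2) → ℝ) 1 := by
    intro z hz
    rw [mem_closedBall_zero_iff, pi_norm_le_iff_of_nonneg zero_le_one]
    intro j
    rw [Real.norm_eq_abs, hsc]
    simp only
    rw [abs_div, abs_of_pos hNr, div_le_one hNr]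
    exact_mod_cast hz j
  refine no_labelling lab (fun z => firstPos_le _) (fun z => ?_) hN ?_ ?_
  · have : sc (-z) = -sc z := by
      funext j
      simp only [hsc, Pi.neg_apply, Int.cast_neg, neg_div]
    simp only [hlabdef, this, he]
  · rintro z ⟨i0, hi0⟩ hz
    have hx1 : ∃ i, |sc z i| = 1 := by
      refine ⟨i0, ?_⟩
      simp only [hsc]
      rw [abs_div, abs_of_pos hNr, div_eq_one_iff_eq hNr.ne']
      exact_mod_cast hi0
    have hx2 : ∀ j, |sc z j| ≤ 1 := by
      intro j
      simp only [hsc]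
      rw [abs_div, abs_of_pos hNr, div_le_one hNr]
      exact_mod_cast hz j
    obtain ⟨c, hc, hGc⟩ := hb (sc z) hx1 hx2
    have hN2 : (0 : ℝ) < (N : ℝ) ^ 2 := by positivity
    -- signs
    have hs1 : ∀ k : Fin (m + 1), (0 < G (sc z) k.castSucc ↔
        z (Fin.last (m + 1)) * z k.castSucc < 0) := by
      intro k
      have e : G (sc z) k.castSucc =
          (2 * c / (N : ℝ) ^ 2) * -(((z (Fin.last (m + 1)) * z k.castSucc : ℤ) : ℝ)) := by
        rw [hGc, H_castSucc]
        simp only [hsc]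
        push_cast
        field_simp
      rw [e, mul_pos_iff_of_pos_left (by positivity), neg_pos]
      exact_mod_cast Iff.rfl
    have hs1' : ∀ k : Fin (m + 1), (G (sc z) k.castSucc ≤ 0 ↔
        0 ≤ z (Fin.last (m + 1)) * z k.castSucc) := by
      intro k
      rw [← not_lt, hs1 k, not_lt]
    have hs2 : 0 < G (sc z) (Fin.last (m + 1)) ↔
        z (Fin.last (m + 1)) ^ 2 < ∑ j : Fin (m + 1), z j.castSucc ^ 2 := by
      have e : G (sc z) (Fin.last (m + 1)) =
          (c / (N : ℝ) ^ 2) * ((((∑ j : Fin (m + 1), z j.castSucc ^ 2) -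
            z (Fin.last (m + 1)) ^ 2 : ℤ) : ℝ)) := by
        rw [hGc, H_last]
        simp only [hsc]
        push_cast
        simp only [div_pow]
        rw [← Finset.sum_div]
        field_simp
      rw [e, mul_pos_iff_of_pos_left (by positivity)]
      rw [← sub_pos (a := ∑ j : Fin (m + 1), z j.castSucc ^ 2)]
      exact_mod_cast Iff.rfl
    refine ⟨fun i => ?_, ?_⟩
    · have := firstPos_eq_iff (G (sc z)) i.castSucc
      rw [Fin.val_castSucc] at this
      simp only [hlabdef]
      rw [this, hs1]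
      refine and_congr_right fun _ => ?_
      constructor
      · intro h k hk
        exact (hs1' k).1 (h k.castSucc (Fin.castSucc_lt_castSucc_iff.2 hk))
      · intro h k hk
        have hkl : k ≠ Fin.last (m + 1) := by
          rintro rfl
          exact absurd (lt_trans hk (Fin.castSucc_lt_last i)) (lt_irrefl _)
        obtain ⟨k', rfl⟩ := Fin.exists_castSucc_eq.2 hkl
        exact (hs1' k').2 (h k' (Fin.castSucc_lt_castSucc_iff.1 hk))
    · have := firstPos_eq_iff (G (sc z)) (Fin.last (m + 1))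
      rw [Fin.val_last] at this
      simp only [hlabdef]
      rw [this, hs2, and_comm]
      refine and_congr_left fun _ => ?_
      constructor
      · intro h k
        exact (hs1' k).1 (h k.castSucc (Fin.castSucc_lt_last k))
      · intro h k hk
        obtain ⟨k', rfl⟩ := Fin.exists_castSucc_eq.2 hk.ne
        exact (hs1' k').2 (h k')
  · intro v hv ρ hfull
    have hvert : ∀ k j, v j ≤ vert v ρ k j ∧ vert v ρ k j ≤ v j + 1 := by
      intro k j
      simp only [vert]
      split_ifs <;> constructor <;> omega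
    have hzb : ∀ k, sc (vert v ρ k) ∈ Metric.closedBall (0 : Fin (m + 2) → ℝ) 1 := by
      intro k
      apply hball
      intro j
      have h1 := hvert k j
      have h2 := hv j
      rw [abs_le]
      omega
    have hdist : ∀ k k', dist (sc (vert v ρ k)) (sc (vert v ρ k')) < δ := by
      intro k k'
      refine lt_of_le_of_lt ?_ hNδ
      rw [dist_pi_le_iff (by positivity)]
      intro j
      simp only [hsc]
      rw [Real.dist_eq, ← sub_div, abs_div, abs_of_pos hNr]
      refine div_le_div_of_nonneg_right ?_ hNr.le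
      have h1 := hvert k j
      have h2 := hvert k' j
      have : |vert v ρ k j - vert v ρ k' j| ≤ 1 := by
        rw [abs_le]; omega
      exact_mod_cast this
    obtain ⟨ks, _, hks⟩ := hfull (m + 2) le_rfl
    have hks' : ∀ i, G (sc (vert v ρ ks)) i ≤ 0 := fun i =>
      firstPos_eq_n _ hks i
    have hlt : ‖G (sc (vert v ρ ks))‖ < μ := by
      rw [pi_norm_lt_iff hμ0]
      intro i
      obtain ⟨ki, _, hki⟩ := hfull i i.2.le
      have hpos : 0 < G (sc (vert v ρ ki)) i :=
        ((firstPos_eq_iff (G (sc (vert v ρ ki))) i).1 hki).1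
      have hdd := hd _ (hzb ks) _ (hzb ki) (hdist ks ki)
      have h3 : dist (G (sc (vert v ρ ks)) i) (G (sc (vert v ρ ki)) i) < μ :=
        lt_of_le_of_lt (dist_le_pi_dist _ _ i) hdd
      rw [Real.dist_eq, abs_lt] at h3
      rw [Real.norm_eq_abs, abs_lt]
      have := hks' i
      constructor <;> linarith [h3.1, h3.2]
    exact absurd (hmin' _ (hzb ks)) (not_le.2 hlt)

end Pool.Agent.FPT
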