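import Pool.Agent.FPT.Defs

set_option autoImplicit false

open scoped BigOperators

namespace Pool.Agent.FPT

/-- the combinatorial core of the pigeonhole parity -/
private theorem pigeon {n : ℕ} (a : ℕ → ℕ) (ha : ∀ k ≤ n, a k ≤ n)
    (hno : ¬ ∀ l ≤ n, ∃ k ≤ n, a k = l) {k₀ : ℕ} (hk₀ : k₀ ≤ n)
    (hfull : ∀ l < n, ∃ k ≤ n, k ≠ k₀ ∧ a k = l) :
    ∃ k₁ ≤ n, k₁ ≠ k₀ ∧ (∀ l < n, ∃ k ≤ n, k ≠ k₁ ∧ a k = l) ∧
      ∀ k₂ ≤ n, k₂ ≠ k₀ → k₂ ≠ k₁ → ¬ ∀ l < n, ∃ k ≤ n, k ≠ k₂ ∧ a k = l := by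
  classical
  set T : Finset ℕ := (Finset.range (n + 1)).erase k₀ with hT
  have hmT : ∀ k, k ∈ T ↔ k ≠ k₀ ∧ k ≤ n := by
    intro k
    rw [hT, Finset.mem_erase, Finset.mem_range, Nat.lt_succ_iff]
  have hcT : T.card = n := by
    rw [hT, Finset.card_erase_of_mem (Finset.mem_range.2 (Nat.lt_succ_iff.2 hk₀)),
      Finset.card_range]
    rfl
  have hsub : Finset.range n ⊆ T.image a := by
    intro l hl
    obtain ⟨k, hk, hne, hkl⟩ := hfull l (Finset.mem_range.1 hl)
    exact Finset.mem_image.2 ⟨k, (hmT k).2 ⟨hne, hk⟩, hkl⟩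
  have hcard : (T.image a).card ≤ (Finset.range n).card := by
    rw [Finset.card_range]
    exact Finset.card_image_le.trans hcT.le
  have himg : Finset.range n = T.image a := Finset.eq_of_subset_of_card_le hsub hcard
  have hinj : Set.InjOn a (T : Set ℕ) := by
    rw [← Finset.card_image_iff, ← himg, Finset.card_range, hcT]
  have hlt : ∀ k ≤ n, k ≠ k₀ → a k < n := by
    intro k hk hne
    have h1 : a k ∈ T.image a := Finset.mem_image_of_mem a ((hmT k).2 ⟨hne, hk⟩)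
    rw [← himg] at h1
    exact Finset.mem_range.1 h1
  have hk₀lt : a k₀ < n := by
    refine lt_of_le_of_ne (ha k₀ hk₀) ?_
    intro h
    apply hno
    intro l hl
    rcases Nat.lt_or_ge l n with h1 | h1
    · obtain ⟨k, hk, _, hkl⟩ := hfull l h1
      exact ⟨k, hk, hkl⟩
    · exact ⟨k₀, hk₀, by omega⟩
  obtain ⟨k₁, hk₁, hne₁, hk₁a⟩ := hfull _ hk₀lt
  refine ⟨k₁, hk₁, hne₁, ?_, ?_⟩
  · intro l hl
    obtain ⟨k, hk, hne, hkl⟩ := hfull l hl
    by_cases h : k = k₁
    · exact ⟨k₀, hk₀, hne₁.symm, by rw [← hk₁a, ← h, hkl]⟩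
    · exact ⟨k, hk, h, hkl⟩
  · intro k₂ hk₂ hne₂ hne₂' hf
    obtain ⟨k, hk, hne, hkl⟩ := hf (a k₂) (hlt k₂ hk₂ hne₂)
    by_cases h : k = k₀
    · rw [h, ← hk₁a] at hkl
      exact hne₂' (hinj ((hmT k₂).2 ⟨hne₂, hk₂⟩) ((hmT k₁).2 ⟨hne₁, hk₁⟩) hkl.symm)
    · exact hne (hinj ((hmT k).2 ⟨h, hk⟩) ((hmT k₂).2 ⟨hne₂, hk₂⟩) hkl)

open Classical in
/-- Pigeonhole parity: a simplex whose labels are `≤ n` and which is not full has an even number of
full facets.  (If the facet opposite to `k₀` is full, the label of the vertex `k₀` is `< n`, because the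
simplex is not full, so it equals the label of exactly one other vertex `k₁`; then exactly the facets
opposite to `k₀` and `k₁` are full.) -/
theorem even_fullFacets {n : ℕ} (lab : (Fin n → ℤ) → ℕ) (v : Fin n → ℤ)
    (ρ : Equiv.Perm (Fin n)) (hlab : ∀ z, lab z ≤ n) (hno : ¬ FullSimplex lab v ρ) :
    Even ((Finset.range (n + 1)).filter fun k₀ => FullFacet lab v ρ k₀).card := by
  by_cases hex : ∃ k₀ ≤ n, FullFacet lab v ρ k₀
  · obtain ⟨k₀, hk₀, hf⟩ := hex
    obtain ⟨k₁, hk₁, hne, h1, h2⟩ := pigeon (n := n) (fun k => lab (vert v ρ k))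
      (fun k _ => hlab _) hno hk₀ hf
    have heq : ((Finset.range (n + 1)).filter fun k₀ => FullFacet lab v ρ k₀) = {k₀, k₁} := by
      ext k
      rw [Finset.mem_filter, Finset.mem_range, Nat.lt_succ_iff, Finset.mem_insert,
        Finset.mem_singleton]
      constructor
      · rintro ⟨hk, hfk⟩
        by_contra hcon
        rw [not_or] at hcon
        exact h2 k hk hcon.1 hcon.2 hfk
      · rintro (rfl | rfl)
        · exact ⟨hk₀, hf⟩
        · exact ⟨hk₁, h1⟩
    rw [heq, Finset.card_pair hne.symm]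
    exact even_two
  · have heq : ((Finset.range (n + 1)).filter fun k₀ => FullFacet lab v ρ k₀) = ∅ := by
      rw [Finset.filter_eq_empty_iff]
      intro k hk hf
      exact hex ⟨k, Nat.lt_succ_iff.1 (Finset.mem_range.1 hk), hf⟩
    rw [heq, Finset.card_empty]
    exact Even.zero

/-- For `0 < k₀ < n` the facet opposite to `k₀` is the same for `ρ` and for `ρ` followed by the
transposition of the positions `k₀ - 1`, `k₀`. -/
theorem fullFacet_swap {n : ℕ} (lab : (Fin n → ℤ) → ℕ) (v : Fin n → ℤ)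
    (ρ : Equiv.Perm (Fin n)) {k₀ : ℕ} (h0 : 0 < k₀) (h1 : k₀ < n) :
    FullFacet lab v (ρ.trans (Equiv.swap ⟨k₀ - 1, by omega⟩ ⟨k₀, h1⟩)) k₀ ↔
      FullFacet lab v ρ k₀ := by
  have hv : ∀ k, k ≠ k₀ →
      vert v (ρ.trans (Equiv.swap ⟨k₀ - 1, by omega⟩ ⟨k₀, h1⟩)) k = vert v ρ k := by
    intro k hk
    funext i
    unfold vert
    congr 1
    refine if_congr ?_ rfl rfl
    rw [Equiv.trans_apply]
    by_cases ha : ρ i = ⟨k₀ - 1, by omega⟩
    · rw [ha, Equiv.swap_apply_left]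
      show k₀ < k ↔ k₀ - 1 < k
      omega
    · by_cases hb : ρ i = ⟨k₀, h1⟩
      · rw [hb, Equiv.swap_apply_right]
        show k₀ - 1 < k ↔ k₀ < k
        omega
      · rw [Equiv.swap_apply_of_ne_of_ne ha hb]
  unfold FullFacet
  constructor
  · intro h l hl
    obtain ⟨k, hk, hne, hkl⟩ := h l hl
    exact ⟨k, hk, hne, by rw [← hv k hne]; exact hkl⟩
  · intro h l hl
    obtain ⟨k, hk, hne, hkl⟩ := h l hl
    exact ⟨k, hk, hne, by rw [hv k hne]; exact hkl⟩

/-- The facet opposite to the vertex `0` of `(v, ρ)` is the facet opposite to the vertex `m + 1` of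
`(v + e_i, ρ')`, where `ρ i = 0`, `ρ' i = m` and `ρ' j = ρ j - 1` otherwise. -/
theorem fullFacet_zero {m : ℕ} (lab : (Fin (m + 1) → ℤ) → ℕ) (v : Fin (m + 1) → ℤ)
    (ρ ρ' : Equiv.Perm (Fin (m + 1))) (i : Fin (m + 1)) (hi : ρ i = 0) (hi' : ρ' i = Fin.last m)
    (hρ : ∀ j, j ≠ i → (ρ j : ℕ) = (ρ' j : ℕ) + 1) :
    FullFacet lab v ρ 0 ↔ FullFacet lab (v + Pi.single i 1) ρ' (m + 1) := by
  have hv : ∀ k, k ≤ m → vert v ρ (k + 1) = vert (v + Pi.single i 1) ρ' k := by
    intro k hk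
    funext j
    unfold vert
    rw [Pi.add_apply]
    by_cases hj : j = i
    · subst hj
      rw [Pi.single_eq_same, hi, hi', if_pos (by simp), if_neg (by
        rw [Fin.val_last]
        omega)]
      ring
    · rw [Pi.single_eq_of_ne hj, add_zero, hρ j hj]
      congr 1
      refine if_congr ?_ rfl rfl
      omega
  unfold FullFacet
  constructor
  · intro h l hl
    obtain ⟨k, hk, hne, hkl⟩ := h l hl
    refine ⟨k - 1, by omega, by omega, ?_⟩
    rw [← hv (k - 1) (by omega), show k - 1 + 1 = k by omega]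
    exact hkl
  · intro h l hl
    obtain ⟨k, hk, hne, hkl⟩ := h l hl
    refine ⟨k + 1, by omega, by omega, ?_⟩
    rw [hv k (by omega)]
    exact hkl

open Classical in
private theorem chain_eq {m : ℕ} (lab : (Fin (m + 1) → ℤ) → ℕ) (i : Fin (m + 1))
    (w : Fin (m + 1) → ℤ) : chainCount lab i w = ∑ ρ : Equiv.Perm (Fin (m + 1)),
      if ρ i = Fin.last m ∧ FullFacet lab w ρ (m + 1) then (1 : ZMod 2) else 0 := by
  unfold chainCount
  rw [Finset.sum_boole]

open Classical in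
private theorem sum_unique {m : ℕ} (p : Equiv.Perm (Fin (m + 1)) → Prop) (c : Fin (m + 1)) :
    ∑ i, ∑ ρ : Equiv.Perm (Fin (m + 1)), (if ρ i = c ∧ p ρ then (1 : ZMod 2) else 0) =
      ∑ ρ : Equiv.Perm (Fin (m + 1)), if p ρ then (1 : ZMod 2) else 0 := by
  rw [Finset.sum_comm]
  refine Finset.sum_congr rfl fun ρ _ => ?_
  rw [Finset.sum_eq_single (ρ.symm c)]
  · rw [Equiv.apply_symm_apply]
    refine if_congr ?_ rfl rfl
    simp
  · intro j _ hj
    rw [if_neg]
    rintro ⟨h, _⟩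
    apply hj
    rw [← h, Equiv.symm_apply_apply]
  · intro h
    exact absurd (Finset.mem_univ _) h

open Classical in
/-- The sum over one cell: the inner facets cancel in pairs. -/
theorem cell_sum {m : ℕ} (lab : (Fin (m + 1) → ℤ) → ℕ) (v : Fin (m + 1) → ℤ)
    (hlab : ∀ z, lab z ≤ m + 1) (hno : ∀ ρ, ¬ FullSimplex lab v ρ) :
    ∑ i, (chainCount lab i v + chainCount lab i (v + Pi.single i 1)) = 0 := by
  set F : Equiv.Perm (Fin (m + 1)) → ℕ → ZMod 2 :=
    fun ρ k => if FullFacet lab v ρ k then 1 else 0 with hF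
  have hA : ∀ ρ, ∑ k ∈ Finset.range (m + 1 + 1), F ρ k = 0 := by
    intro ρ
    rw [hF]
    show ∑ k ∈ Finset.range (m + 1 + 1), (if FullFacet lab v ρ k then (1 : ZMod 2) else 0) = 0
    rw [Finset.sum_boole, ZMod.natCast_eq_zero_iff_even]
    exact even_fullFacets lab v ρ hlab (hno ρ)
  have hB : ∀ k, 0 < k → k < m + 1 → ∑ ρ, F ρ k = 0 := by
    intro k h0 h1
    refine Finset.sum_involution
      (fun ρ _ => ρ.trans (Equiv.swap ⟨k - 1, by omega⟩ ⟨k, h1⟩)) ?_ ?_ ?_ ?_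
    · intro ρ _
      have h2 : F (ρ.trans (Equiv.swap ⟨k - 1, by omega⟩ ⟨k, h1⟩)) k = F ρ k := by
        rw [hF]
        exact if_congr (fullFacet_swap lab v ρ h0 h1) rfl rfl
      rw [h2]
      exact CharTwo.add_self_eq_zero _
    · intro ρ _ _ h2
      have h3 := Equiv.congr_fun h2 (ρ.symm ⟨k, h1⟩)
      rw [Equiv.trans_apply, Equiv.apply_symm_apply, Equiv.swap_apply_right] at h3
      have h4 := congrArg Fin.val h3
      simp only at h4
      omega
    · intro ρ _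
      exact Finset.mem_univ _
    · intro ρ _
      ext j
      simp
  have hC : ∑ ρ, F ρ 0 + ∑ ρ, F ρ (m + 1) = 0 := by
    have h1 : ∑ k ∈ Finset.range (m + 1 + 1), ∑ ρ, F ρ k = 0 := by
      rw [Finset.sum_comm]
      exact Finset.sum_eq_zero fun ρ _ => hA ρ
    rw [Finset.sum_range_succ, Finset.sum_range_succ'] at h1
    rw [Finset.sum_eq_zero (fun k hk => hB (k + 1) (by omega) (by
      have := Finset.mem_range.1 hk
      omega)), zero_add] at h1
    exact h1
  have hD : ∑ i, chainCount lab i v = ∑ ρ, F ρ (m + 1) := by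
    simp only [chain_eq]
    exact sum_unique (fun ρ => FullFacet lab v ρ (m + 1)) (Fin.last m)
  have hE : ∑ i, chainCount lab i (v + Pi.single i 1) = ∑ ρ, F ρ 0 := by
    have h1 : ∑ ρ, F ρ 0 = ∑ i, ∑ ρ : Equiv.Perm (Fin (m + 1)),
        (if ρ i = 0 ∧ FullFacet lab v ρ 0 then (1 : ZMod 2) else 0) :=
      (sum_unique (fun ρ => FullFacet lab v ρ 0) 0).symm
    rw [h1]
    refine Finset.sum_congr rfl fun i _ => ?_
    rw [chain_eq]
    refine Fintype.sum_equiv (Equiv.mulLeft (finRotate (m + 1))) _ _ fun ρ' => ?_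
    refine if_congr ?_ rfl rfl
    rw [Equiv.coe_mulLeft, Equiv.Perm.mul_apply]
    have h2 : finRotate (m + 1) (ρ' i) = 0 ↔ ρ' i = Fin.last m := by
      rw [← finRotate_last, (finRotate (m + 1)).injective.eq_iff]
    rw [h2]
    refine and_congr_right fun h3 => ?_
    refine (fullFacet_zero lab v (finRotate (m + 1) * ρ') ρ' i ?_ h3 ?_).symm
    · rw [Equiv.Perm.mul_apply, h2]
      exact h3
    · intro j hj
      rw [Equiv.Perm.mul_apply]
      apply coe_finRotate_of_ne_last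
      intro h4
      exact hj (ρ'.injective (h4.trans h3.symm))
  rw [Finset.sum_add_distrib, hD, hE, add_comm]
  exact hC

end Pool.Agent.FPT
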