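import Pool.Agent.FPT.Parity

set_option autoImplicit false

open scoped BigOperators

namespace Pool.Agent.FPT

private theorem sum_telescope_zmod (S : ℤ → ZMod 2) (a : ℤ) (k : ℕ) :
    ∑ c ∈ Finset.Ico a (a + k), (S c + S (c + 1)) = S a + S (a + k) := by
  have h2 : ∀ x : ZMod 2, x + x = 0 := fun x => CharTwo.add_self_eq_zero x
  induction k with
  | zero => simp [h2]
  | succ k ih =>
    have : Finset.Ico a (a + ((k + 1 : ℕ) : ℤ)) = insert (a + (k : ℤ)) (Finset.Ico a (a + k)) := by
      ext x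
      simp only [Finset.mem_Ico, Finset.mem_insert]
      push_cast
      omega
    rw [this, Finset.sum_insert (by simp), ih]
    have e : a + ((k + 1 : ℕ) : ℤ) = a + (k : ℤ) + 1 := by push_cast; ring
    rw [e]
    calc S (a + (k : ℤ)) + S (a + (k : ℤ) + 1) + (S a + S (a + (k : ℤ)))
        = S a + S (a + (k : ℤ) + 1) + (S (a + (k : ℤ)) + S (a + (k : ℤ))) := by ring
      _ = _ := by rw [h2, add_zero]

private theorem mem_face_iff {n : ℕ} (lo hi : Fin n → ℤ) (i : Fin n) (c : ℤ) (v : Fin n → ℤ) :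
    v ∈ face lo hi i c ↔ v i = c ∧ ∀ j, j ≠ i → lo j ≤ v j ∧ v j < hi j := by
  unfold face
  rw [Fintype.mem_piFinset]
  constructor
  · intro h
    refine ⟨by simpa using h i, fun j hj => ?_⟩
    have := h j
    simpa [hj] using this
  · rintro ⟨h1, h2⟩ j
    by_cases hj : j = i
    · subst hj
      simp [h1]
    · simpa [hj] using h2 j hj

/-- Telescoping in one direction (in `ZMod 2`). -/
theorem telescope {n : ℕ} (A : (Fin n → ℤ) → ZMod 2) (lo hi : Fin n → ℤ) (h : ∀ j, lo j ≤ hi j)
    (i : Fin n) :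
    ∑ v ∈ Fintype.piFinset (fun j => Finset.Ico (lo j) (hi j)), (A v + A (v + Pi.single i 1)) =
      ∑ v ∈ face lo hi i (lo i), A v + ∑ v ∈ face lo hi i (hi i), A v := by
  classical
  have hfib : ∀ B : (Fin n → ℤ) → ZMod 2,
      ∑ v ∈ Fintype.piFinset (fun j => Finset.Ico (lo j) (hi j)), B v =
        ∑ c ∈ Finset.Ico (lo i) (hi i), ∑ v ∈ face lo hi i c, B v := by
    intro B
    rw [← Finset.sum_fiberwise_of_maps_to (t := Finset.Ico (lo i) (hi i)) (g := fun v => v i)]
    · refine Finset.sum_congr rfl fun c hc => Finset.sum_congr ?_ fun _ _ => rfl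
      ext v
      rw [Finset.mem_filter, mem_face_iff, Fintype.mem_piFinset]
      simp only [Finset.mem_Ico] at hc ⊢
      constructor
      · rintro ⟨h1, h2⟩
        exact ⟨h2, fun j _ => h1 j⟩
      · rintro ⟨h1, h2⟩
        refine ⟨fun j => ?_, h1⟩
        by_cases hj : j = i
        · subst hj
          rw [h1]
          exact hc
        · exact h2 j hj
    · intro v hv
      rw [Fintype.mem_piFinset] at hv
      exact hv i
  have hsh : ∀ c : ℤ, ∑ v ∈ face lo hi i c, A (v + Pi.single i 1) =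
      ∑ v ∈ face lo hi i (c + 1), A v := by
    intro c
    refine Finset.sum_bij' (fun v _ => v + Pi.single i 1) (fun v _ => v - Pi.single i 1)
      ?_ ?_ ?_ ?_ ?_
    · intro v hv
      rw [mem_face_iff] at hv ⊢
      refine ⟨by simp [hv.1], fun j hj => ?_⟩
      have := hv.2 j hj
      simpa [Pi.single_eq_of_ne hj] using this
    · intro v hv
      rw [mem_face_iff] at hv ⊢
      refine ⟨by simp [hv.1], fun j hj => ?_⟩
      have := hv.2 j hj
      simpa [Pi.single_eq_of_ne hj] using this
    · intro v _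
      simp
    · intro v _
      simp
    · intro v _
      rfl
  rw [Finset.sum_add_distrib, hfib, hfib, ← Finset.sum_add_distrib]
  have : ∀ c ∈ Finset.Ico (lo i) (hi i),
      (∑ v ∈ face lo hi i c, A v + ∑ v ∈ face lo hi i c, A (v + Pi.single i 1)) =
      (∑ v ∈ face lo hi i c, A v + ∑ v ∈ face lo hi i (c + 1), A v) := by
    intro c _
    rw [hsh c]
  rw [Finset.sum_congr rfl this]
  obtain ⟨k, hk⟩ := Int.le.dest (h i)
  rw [← hk]
  exact sum_telescope_zmod (fun c => ∑ v ∈ face lo hi i c, A v) (lo i) k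

/-- Stokes' formula mod 2 for the Kuhn triangulation of a box without full simplices (sum
`cell_sum` over the cells of the box, exchange the sums and use `telescope`). -/
theorem stokes {m : ℕ} (lab : (Fin (m + 1) → ℤ) → ℕ) (hlab : ∀ z, lab z ≤ m + 1)
    (lo hi : Fin (m + 1) → ℤ) (h : ∀ j, lo j ≤ hi j)
    (hno : ∀ v : Fin (m + 1) → ℤ, (∀ j, lo j ≤ v j ∧ v j < hi j) → ∀ ρ, ¬ FullSimplex lab v ρ) :
    ∑ i, (∑ v ∈ face lo hi i (lo i), chainCount lab i v +
      ∑ v ∈ face lo hi i (hi i), chainCount lab i v) = 0 := by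
  classical
  have h1 : ∀ i : Fin (m + 1), (∑ v ∈ face lo hi i (lo i), chainCount lab i v +
      ∑ v ∈ face lo hi i (hi i), chainCount lab i v) =
      ∑ v ∈ Fintype.piFinset (fun j => Finset.Ico (lo j) (hi j)),
        (chainCount lab i v + chainCount lab i (v + Pi.single i 1)) :=
    fun i => (telescope (chainCount lab i) lo hi h i).symm
  rw [Finset.sum_congr rfl fun i _ => h1 i, Finset.sum_comm]
  refine Finset.sum_eq_zero fun v hv => ?_
  rw [Fintype.mem_piFinset] at hv
  exact cell_sum lab v hlab (hno v fun j => by simpa using hv j)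

end Pool.Agent.FPT
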